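import Pool.Graph.R_pool_sql_team_seeded_63374d34.N687.W.A5

/-!
The error term of the circle problem in mean square over the windows `[T, κ T]`.
-/

set_option autoImplicit false

open MeasureTheory Filter Topology

namespace Pool.Agent.H480.CP

open Pool.Agent.H383.Gen (U Bd)
open Pool.Agent.H383.Gauss (En F)
open Pool.Agent.H383.Circ (ag ag_Bd ag_zero wg wg_Wt En_Sand)
open Pool.Agent.R461.GC (ch norm_ch ch_cont tail_conv Adm En_meas En_bdd)
open Pool.Agent.H452R2.Win (ag_Bdw En_SandW)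
open Pool.Agent.N687.W (norm_int_ch U_cont E_ii)

noncomputable section

/-- the phase -/
def ph : ℝ := 3 * Real.pi / 4

lemma adm {κ : ℝ} (hκ : 1 < κ) {T : ℝ} (hT : 1 ≤ T) :
    Adm 1 κ (2 / (κ - 1)) (2/5) T (ENNReal.ofReal (κ - 1)⁻¹ • volume.restrict (Set.Ioc (1:ℝ) κ)) := by
  have h0 : 0 < κ - 1 := by linarith
  refine ⟨⟨?_⟩, ?_, ?_⟩
  · rw [Measure.smul_apply, Measure.restrict_apply_univ, Real.volume_Ioc, smul_eq_mul, ← ENNReal.ofReal_mul (by positivity),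
      inv_mul_cancel₀ h0.ne', ENNReal.ofReal_one]
  · refine Measure.ae_smul_measure ?_ _
    rw [ae_restrict_iff' measurableSet_Ioc]
    exact Eventually.of_forall fun x hx => ⟨hx.1.le, hx.2⟩
  · intro t ht _
    have ht1 : 1 ≤ |t| := le_trans (Real.one_le_rpow hT (by norm_num)) ht
    have ht0 : t ≠ 0 := fun h => by rw [h, abs_zero] at ht1; linarith
    have h1 := norm_int_ch ht0 1 κ
    rw [intervalIntegral.integral_of_le hκ.le] at h1
    rw [integral_smul_measure, ENNReal.toReal_ofReal (by positivity), norm_smul, Real.norm_eq_abs, abs_of_pos (by positivity)]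
    calc (κ - 1)⁻¹ * ‖∫ x in Set.Ioc 1 κ, ch t x‖ ≤ (κ - 1)⁻¹ * (2 / |t|) := mul_le_mul_of_nonneg_left h1 (by positivity)
      _ = 2 / (κ - 1) * |t| ^ (-1 : ℝ) := by rw [Real.rpow_neg_one]; field_simp
      _ ≤ 2 / (κ - 1) * |t| ^ (-(2/5) : ℝ) :=
        mul_le_mul_of_nonneg_left (Real.rpow_le_rpow_of_exponent_le ht1 (by norm_num)) (by positivity)

/-- mean square approximation in windows -/
theorem win_ms {κ : ℝ} (hκ : 1 < κ) {η : ℝ} (hη : 0 < η) : ∃ M₀ : ℕ, ∀ M, M₀ ≤ M → ∃ T₀ : ℝ, 1 ≤ T₀ ∧ ∀ T, T₀ ≤ T →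
    ∫ x in Set.Icc 1 κ, (En (T * x) - U ag ph (T * x) M) ^ 2 ≤ η := by
  have h0 : 0 < κ - 1 := by linarith
  obtain ⟨M₀, hM⟩ := tail_conv (c₁ := 1) (c₂ := κ) (K := 2 / (κ - 1)) (s := 2/5) ag_Bdw ag_zero wg_Wt En_SandW one_pos hκ.le
    (by positivity) (by norm_num) le_rfl (η / (κ - 1)) (by positivity)
  refine ⟨M₀, fun M hM0 => ?_⟩
  obtain ⟨T₀, hT₀⟩ := hM M hM0
  refine ⟨max T₀ 1, le_max_right _ _, fun T hT => ?_⟩
  have h1 := hT₀ T ((le_max_left _ _).trans hT) _ (adm hκ ((le_max_right _ _).trans hT))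
  rw [integral_smul_measure, ENNReal.toReal_ofReal (by positivity), smul_eq_mul] at h1
  rw [integral_Icc_eq_integral_Ioc]
  have h2 := mul_le_mul_of_nonneg_left h1 h0.le
  rw [← mul_assoc, mul_inv_cancel₀ h0.ne', one_mul, mul_div_cancel₀ _ h0.ne'] at h2
  exact h2

/-- bounds for the trigonometric polynomials -/
theorem U_bd (M : ℕ) : ∃ B : ℝ, 0 ≤ B ∧ ∀ R : ℝ, |U ag ph R M| ≤ B := by
  refine ⟨∑ m ∈ Finset.Icc 1 (M^2), |ag m|, Finset.sum_nonneg fun _ _ => abs_nonneg _, fun R => ?_⟩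
  unfold U
  refine (Finset.abs_sum_le_sum_abs _ _).trans (Finset.sum_le_sum fun m _ => ?_)
  rw [abs_mul]
  exact mul_le_of_le_one_right (abs_nonneg _) (Real.abs_cos_le_one _)

theorem U_lip (M : ℕ) : ∃ L : ℝ, 0 ≤ L ∧ ∀ R R' : ℝ, |U ag ph R M - U ag ph R' M| ≤ L * |R - R'| := by
  refine ⟨∑ m ∈ Finset.Icc 1 (M^2), |ag m| * (2 * Real.pi * √(m:ℝ)),
    Finset.sum_nonneg fun m _ => mul_nonneg (abs_nonneg (ag m)) (by positivity), fun R R' => ?_⟩
  unfold U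
  rw [← Finset.sum_sub_distrib, Finset.sum_mul]
  refine (Finset.abs_sum_le_sum_abs _ _).trans (Finset.sum_le_sum fun m _ => ?_)
  rw [← mul_sub, abs_mul, mul_assoc |ag m|]
  refine mul_le_mul_of_nonneg_left ?_ (abs_nonneg (ag m))
  refine (Real.abs_cos_sub_cos_le _ _).trans (le_of_eq ?_)
  rw [show 2 * Real.pi * (R * √(m:ℝ)) - ph - (2 * Real.pi * (R' * √(m:ℝ)) - ph) = 2 * Real.pi * √(m:ℝ) * (R - R') by ring,
    abs_mul, abs_of_nonneg (by positivity)]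

lemma ch_def (θ r : ℝ) : ch θ r = Complex.exp (((θ * r : ℝ) : ℂ) * Complex.I) := by
  unfold ch
  push_cast
  ring_nf

lemma cos_ch (a c Y x : ℝ) : ((a * Real.cos (2 * Real.pi * (Y * x * c) - ph) : ℝ) : ℂ) * ch (-(2 * Real.pi * Y)) x =
    ((a / 2 : ℝ) : ℂ) * Complex.exp (-(ph * Complex.I)) * ch (2 * Real.pi * Y * (c - 1)) x +
      ((a / 2 : ℝ) : ℂ) * Complex.exp (ph * Complex.I) * ch (-(2 * Real.pi * Y * (c + 1))) x := by
  rw [ch_def, ch_def, ch_def, mul_assoc _ (Complex.exp _) (Complex.exp _), mul_assoc _ (Complex.exp _) (Complex.exp _),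
    ← Complex.exp_add, ← Complex.exp_add]
  push_cast
  rw [Complex.cos]
  have e1 : Complex.exp (-(ph * Complex.I) + 2 * Real.pi * Y * (c - 1) * x * Complex.I) =
      Complex.exp ((2 * Real.pi * (Y * x * c) - ph) * Complex.I) * Complex.exp (-(2 * Real.pi * Y) * x * Complex.I) := by
    rw [← Complex.exp_add]; congr 1; ring
  have e2 : Complex.exp (ph * Complex.I + -(2 * Real.pi * Y * (c + 1)) * x * Complex.I) =
      Complex.exp (-(2 * Real.pi * (Y * x * c) - ph) * Complex.I) * Complex.exp (-(2 * Real.pi * Y) * x * Complex.I) := by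
    rw [← Complex.exp_add]; congr 1; ring
  rw [e1, e2]
  ring

lemma ch_bd {θ : ℝ} (hθ : θ ≠ 0) (A : ℝ) : ‖∫ x in (1:ℝ)..A, ch θ x‖ ≤ 2 / |θ| := norm_int_ch hθ 1 A

lemma norm_ph : ‖Complex.exp (-(ph * Complex.I))‖ = 1 ∧ ‖Complex.exp (ph * Complex.I)‖ = 1 := by
  constructor
  · rw [show -((ph : ℂ) * Complex.I) = ((-ph : ℝ) : ℂ) * Complex.I by push_cast; ring, Complex.norm_exp_ofReal_mul_I]
  · rw [Complex.norm_exp_ofReal_mul_I]

lemma int_cos_ch (a c Y A : ℝ) : ∫ x in (1:ℝ)..A, ((a * Real.cos (2 * Real.pi * (Y * x * c) - ph) : ℝ) : ℂ) * ch (-(2 * Real.pi * Y)) x =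
    ((a / 2 : ℝ) : ℂ) * Complex.exp (-(ph * Complex.I)) * (∫ x in (1:ℝ)..A, ch (2 * Real.pi * Y * (c - 1)) x) +
      ((a / 2 : ℝ) : ℂ) * Complex.exp (ph * Complex.I) * ∫ x in (1:ℝ)..A, ch (-(2 * Real.pi * Y * (c + 1))) x := by
  simp_rw [cos_ch]
  rw [intervalIntegral.integral_add, intervalIntegral.integral_const_mul, intervalIntegral.integral_const_mul]
  · exact (continuous_const.mul (ch_cont _)).intervalIntegrable _ _
  · exact (continuous_const.mul (ch_cont _)).intervalIntegrable _ _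

lemma second_bd {a c Y A : ℝ} (hY : 1 ≤ Y) (hc : 0 ≤ c) :
    ‖((a / 2 : ℝ) : ℂ) * Complex.exp (ph * Complex.I) * ∫ x in (1:ℝ)..A, ch (-(2 * Real.pi * Y * (c + 1))) x‖ ≤ |a| / Y := by
  have hY0 : 0 < Y := by linarith
  have hpi := Real.pi_gt_three
  have h0 : 0 < 2 * Real.pi * Y * (c + 1) := by positivity
  rw [norm_mul, norm_mul, norm_ph.2, mul_one, Complex.norm_real, Real.norm_eq_abs, abs_div, abs_two]
  have h1 := ch_bd (θ := -(2 * Real.pi * Y * (c + 1))) (by linarith [h0]) A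
  rw [abs_neg, abs_of_pos h0] at h1
  have h2 : 2 / (2 * Real.pi * Y * (c + 1)) ≤ 2 / Y := by
    apply div_le_div_of_nonneg_left (by norm_num) hY0
    nlinarith [mul_pos hY0 (show (0:ℝ) < c + 1 by linarith)]
  calc |a| / 2 * _ ≤ |a| / 2 * (2 / Y) := mul_le_mul_of_nonneg_left (h1.trans h2) (by positivity)
    _ = |a| / Y := by ring

lemma wave {a c Y A : ℝ} (hY : 1 ≤ Y) (hc : 1 < c) :
    ‖∫ x in (1:ℝ)..A, ((a * Real.cos (2 * Real.pi * (Y * x * c) - ph) : ℝ) : ℂ) * ch (-(2 * Real.pi * Y)) x‖ ≤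
      (|a| / (c - 1) + |a|) / Y := by
  have hY0 : 0 < Y := by linarith
  have hc0 : 0 < c - 1 := by linarith
  have hpi := Real.pi_gt_three
  have h0 : 0 < 2 * Real.pi * Y * (c - 1) := by positivity
  rw [int_cos_ch, add_div]
  refine (norm_add_le _ _).trans (add_le_add ?_ (second_bd hY (by linarith)))
  rw [norm_mul, norm_mul, norm_ph.1, mul_one, Complex.norm_real, Real.norm_eq_abs, abs_div, abs_two]
  have h1 := ch_bd (θ := 2 * Real.pi * Y * (c - 1)) h0.ne' A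
  rw [abs_of_pos h0] at h1
  have h2 : 2 / (2 * Real.pi * Y * (c - 1)) ≤ 2 / (Y * (c - 1)) := by
    apply div_le_div_of_nonneg_left (by norm_num) (by positivity)
    nlinarith [mul_pos hY0 hc0]
  calc |a| / 2 * _ ≤ |a| / 2 * (2 / (Y * (c - 1))) := mul_le_mul_of_nonneg_left (h1.trans h2) (by positivity)
    _ = |a| / (c - 1) / Y := by field_simp

lemma wave1 {a Y A : ℝ} (hY : 1 ≤ Y) :
    ‖(∫ x in (1:ℝ)..A, ((a * Real.cos (2 * Real.pi * (Y * x * 1) - ph) : ℝ) : ℂ) * ch (-(2 * Real.pi * Y)) x) -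
      ((a / 2 * (A - 1) : ℝ) : ℂ) * Complex.exp (-(ph * Complex.I))‖ ≤ |a| / Y := by
  rw [int_cos_ch]
  have h1 : ∫ x in (1:ℝ)..A, ch (2 * Real.pi * Y * (1 - 1)) x = ((A - 1 : ℝ) : ℂ) := by
    simp_rw [ch_def]
    simp
  rw [h1]
  have h2 := second_bd (a := a) (c := 1) (A := A) hY zero_le_one
  refine le_trans (le_of_eq ?_) h2
  congr 1
  push_cast
  ring

/-- the first wave -/
theorem first_wave {M : ℕ} (hM : 1 ≤ M) : ∃ D : ℝ, 0 ≤ D ∧ ∀ A : ℝ, ∀ Y : ℝ, 1 ≤ Y →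
    ‖(∫ x in (1:ℝ)..A, ((U ag ph (Y * x) M : ℝ) : ℂ) * ch (-(2 * Real.pi * Y)) x) -
      ((ag 1 / 2 * (A - 1) : ℝ) : ℂ) * Complex.exp (-(ph * Complex.I))‖ ≤ D / Y := by
  have hmem : 1 ∈ Finset.Icc 1 (M^2) := Finset.mem_Icc.2 ⟨le_rfl, Nat.one_le_pow _ _ hM⟩
  refine ⟨|ag 1| + ∑ m ∈ (Finset.Icc 1 (M^2)).erase 1, (|ag m| / (√(m:ℝ) - 1) + |ag m|), ?_, fun A Y hY => ?_⟩
  · refine add_nonneg (abs_nonneg _) (Finset.sum_nonneg fun m hm => ?_)
    have hm2 : 1 < m := by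
      have h1 := (Finset.mem_Icc.1 (Finset.mem_of_mem_erase hm)).1
      have h2 := Finset.ne_of_mem_erase hm
      omega
    have : (1:ℝ) < √(m:ℝ) := by
      rw [Real.lt_sqrt (by norm_num)]
      have : (1:ℝ) < m := by exact_mod_cast hm2
      linarith
    have h3 : 0 < √(m:ℝ) - 1 := by linarith
    positivity
  · have e1 : ∫ x in (1:ℝ)..A, ((U ag ph (Y * x) M : ℝ) : ℂ) * ch (-(2 * Real.pi * Y)) x =
        ∑ m ∈ Finset.Icc 1 (M^2), ∫ x in (1:ℝ)..A,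
          ((ag m * Real.cos (2 * Real.pi * (Y * x * √(m:ℝ)) - ph) : ℝ) : ℂ) * ch (-(2 * Real.pi * Y)) x := by
      rw [← intervalIntegral.integral_finset_sum]
      · refine intervalIntegral.integral_congr fun x _ => ?_
        simp only [U]
        push_cast
        rw [Finset.sum_mul]
      · intro m _
        refine Continuous.intervalIntegrable ?_ _ _
        exact (by fun_prop : Continuous fun x : ℝ => ((ag m * Real.cos (2 * Real.pi * (Y * x * √(m:ℝ)) - ph) : ℝ) : ℂ)).mul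
          (ch_cont _)
    rw [e1, ← Finset.add_sum_erase _ _ hmem, add_sub_right_comm, add_div]
    refine (norm_add_le _ _).trans (add_le_add ?_ ?_)
    · have h1 := wave1 (a := ag 1) (A := A) hY
      simpa using h1
    · rw [Finset.sum_div]
      refine (norm_sum_le _ _).trans (Finset.sum_le_sum fun m hm => ?_)
      have hm2 : 1 < m := by
        have h1 := (Finset.mem_Icc.1 (Finset.mem_of_mem_erase hm)).1
        have h2 := Finset.ne_of_mem_erase hm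
        omega
      refine wave hY ?_
      rw [Real.lt_sqrt (by norm_num)]
      have : (1:ℝ) < m := by exact_mod_cast hm2
      linarith

theorem ag_one_pos : 0 < ag 1 := by
  unfold ag
  rw [Pool.Agent.H383.Circ.rA_card]
  have h1 : 0 < Nat.card {p : ℤ × ℤ // p.1 ^ 2 + p.2 ^ 2 = ((1 : ℕ) : ℤ)} := by
    have hfin : Finite {p : ℤ × ℤ // p.1 ^ 2 + p.2 ^ 2 = ((1 : ℕ) : ℤ)} := by
      refine Set.Finite.to_subtype (s := {p : ℤ × ℤ | p.1 ^ 2 + p.2 ^ 2 = ((1 : ℕ) : ℤ)}) ?_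
      refine (Set.Finite.prod (Set.finite_Icc (-1:ℤ) 1) (Set.finite_Icc (-1:ℤ) 1)).subset fun p hp => ?_
      have hp' : p.1 ^ 2 + p.2 ^ 2 = 1 := by simpa using hp
      have h1 : p.1 ^ 2 ≤ 1 := by nlinarith [sq_nonneg p.2]
      have h2 : p.2 ^ 2 ≤ 1 := by nlinarith [sq_nonneg p.1]
      exact ⟨abs_le.1 ((sq_le_one_iff_abs_le_one _).1 h1), abs_le.1 ((sq_le_one_iff_abs_le_one _).1 h2)⟩
    have : Nonempty {p : ℤ × ℤ // p.1 ^ 2 + p.2 ^ 2 = ((1 : ℕ) : ℤ)} := ⟨⟨(1, 0), by simp⟩⟩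
    exact Nat.card_pos
  have h2 : (0:ℝ) < (Nat.card {p : ℤ × ℤ // p.1 ^ 2 + p.2 ^ 2 = ((1 : ℕ) : ℤ)} : ℝ) := by exact_mod_cast h1
  have := Real.pi_pos
  have h3 : (0:ℝ) < √((1:ℕ):ℝ) := by simp
  positivity

end

end Pool.Agent.H480.CP
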