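import Pool.Agent.H480.CP.V

/-!
The circle problem: the local inequality on all rectangles, and the equivalence for Q1.
-/

set_option autoImplicit false

open MeasureTheory Filter Topology Set

namespace Pool.Agent.H480.CP

noncomputable section

/-- approximation within `E` by a kernel of rank `≤ r` -/
def NearE (A A' : ℝ) (r : ℕ) (E X : ℝ) : Prop :=
  ∃ u v : Fin r → ℝ → ℂ, ∀ x ∈ Icc 1 A, ∀ y ∈ Icc 1 A', ‖(Pc (X * x * y) : ℂ) - ∑ i, u i x * v i y‖ ≤ E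

/-- **the local inequality** -/
theorem circle_ineq {A A' z₁ z₂ : ℝ} (hA : 1 < A) (hA' : 1 < A') (h1 : 1 < z₁) (h2 : z₂ < A * A') :
    ∃ C : ℝ, 0 < C ∧ ∀ X : ℝ, 1 ≤ X → ∀ (r : ℕ) (E : ℝ), NearE A A' r E X → ∀ z ∈ Icc z₁ z₂,
      |Pc (X * z)| ≤ C * √(r + 1) * (E + √X) := by
  rcases lt_or_ge z₂ z₁ with hz | hz
  · exact ⟨1, one_pos, fun X _ r E _ z hz' => absurd (hz'.1.trans hz'.2) (not_le.2 hz)⟩
  have hz2 : 0 < z₂ := by linarith
  set β : ℝ := min (min A A') (min z₁ (A * A' / z₂)) with hβ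
  have hβ1 : 1 < β := by
    refine lt_min (lt_min hA hA') (lt_min h1 ?_)
    rw [one_lt_div hz2]
    exact h2
  have hβA : β ≤ A := (min_le_left _ _).trans (min_le_left _ _)
  have hβA' : β ≤ A' := (min_le_left _ _).trans (min_le_right _ _)
  have hβz : β ≤ z₁ := (min_le_right _ _).trans (min_le_left _ _)
  have hβz2 : β * z₂ ≤ A * A' := by
    have : β ≤ A * A' / z₂ := (min_le_right _ _).trans (min_le_right _ _)
    rwa [le_div_iff₀ hz2] at this
  have hβ0 : 0 < β := by linarith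
  obtain ⟨C, hC0, hC⟩ := circle_sq hβ1
  have hAA : 1 ≤ √(A * A') := Real.one_le_sqrt.2 (by nlinarith)
  refine ⟨C * √(A * A'), by positivity, fun X hX r E hE z hz' => ?_⟩
  obtain ⟨u, v, huv⟩ := hE
  have hX0 : 0 < X := by linarith
  have hz0 : 0 < z := by linarith [hz'.1]
  -- the corner of the sub-rectangle
  obtain ⟨x₀, y₀, hx1, hy1, hxA, hyA, hxy⟩ : ∃ x₀ y₀ : ℝ, 1 ≤ x₀ ∧ 1 ≤ y₀ ∧ x₀ * β ≤ A ∧ y₀ * β ≤ A' ∧ x₀ * y₀ * β = z := by
    rcases le_total z A with hc | hc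
    · refine ⟨z / β, 1, ?_, le_rfl, ?_, by linarith, ?_⟩
      · rw [one_le_div hβ0]; linarith [hz'.1]
      · rw [div_mul_cancel₀ _ hβ0.ne']; exact hc
      · rw [mul_one, div_mul_cancel₀ _ hβ0.ne']
    · have hA0 : 0 < A := by linarith
      refine ⟨A / β, z / A, ?_, ?_, ?_, ?_, ?_⟩
      · rw [one_le_div hβ0]; exact hβA
      · rw [one_le_div hA0]; exact hc
      · rw [div_mul_cancel₀ _ hβ0.ne']
      · rw [div_mul_eq_mul_div, div_le_iff₀ hA0]
        have : β * z ≤ β * z₂ := mul_le_mul_of_nonneg_left hz'.2 hβ0.le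
        nlinarith
      · field_simp
  have hx0 : 0 < x₀ := by linarith
  have hy0 : 0 < y₀ := by linarith
  have hX' : 1 ≤ X * x₀ * y₀ := by
    have h3 : 1 ≤ X * x₀ := by nlinarith
    nlinarith
  have h3 := hC (X * x₀ * y₀) hX' r (fun i x => u i (x₀ * x)) (fun i y => v i (y₀ * y)) E (by
    intro x hx y hy
    have h4 := huv (x₀ * x) ⟨by nlinarith [hx.1], by nlinarith [hx.2]⟩ (y₀ * y) ⟨by nlinarith [hy.1], by nlinarith [hy.2]⟩
    rwa [show X * (x₀ * x) * (y₀ * y) = X * x₀ * y₀ * x * y by ring] at h4)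
  have e1 : X * x₀ * y₀ * β = X * z := by rw [← hxy]; ring
  rw [e1] at h3
  have hE0 : 0 ≤ E := (norm_nonneg _).trans (huv 1 ⟨le_rfl, hA.le⟩ 1 ⟨le_rfl, hA'.le⟩)
  have h4 : √(X * x₀ * y₀) ≤ √(A * A') * √X := by
    rw [← Real.sqrt_mul (by positivity)]
    apply Real.sqrt_le_sqrt
    have h5 : x₀ ≤ A := by nlinarith
    have h6 : y₀ ≤ A' := by nlinarith
    have h7 : x₀ * y₀ ≤ A * A' := mul_le_mul h5 h6 hy0.le (by linarith)
    nlinarith
  have h5 : E + √(X * x₀ * y₀) ≤ √(A * A') * (E + √X) := by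
    have : E ≤ √(A * A') * E := le_mul_of_one_le_left hE0 hAA
    linarith
  calc |Pc (X * z)| ≤ C * √(r + 1) * (E + √(X * x₀ * y₀)) := h3
    _ ≤ C * √(r + 1) * (√(A * A') * (E + √X)) := mul_le_mul_of_nonneg_left h5 (by positivity)
    _ = _ := by ring

/-- **the equivalence**, rank up to `X^ε` -/
theorem circle_iff {A A' : ℝ} (hA : 1 < A) (hA' : 1 < A') {θ : ℝ} (hθ : 1 / 2 ≤ θ) :
    (∀ ε : ℝ, 0 < ε → Pc =O[atTop] fun R : ℝ => R ^ (θ + ε)) ↔
      ∀ ε : ℝ, 0 < ε → ∀ᶠ X : ℝ in atTop, NearE A A' ⌊X ^ ε⌋₊ (X ^ (θ + ε)) X := by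
  constructor
  · intro h ε hε
    filter_upwards [NearP.of_bigO hε (by linarith) (h (ε / 2) (by linarith)) hA hA' 0] with X hX
    obtain ⟨u, v, huv⟩ := hX
    refine ⟨fun _ _ => 0, fun _ _ => 0, fun x hx y hy => ?_⟩
    have := huv x hx y hy
    simpa using this
  · intro h ε hε
    set B : ℝ := min A A' with hB
    have hB1 : 1 < B := lt_min hA hA'
    have hB0 : 0 < B := by linarith
    have hBA : B < A * A' := by
      have h1 : B ≤ A := min_le_left _ _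
      nlinarith
    obtain ⟨C, hC0, hC⟩ := circle_ineq (z₁ := B) (z₂ := B) hA hA' hB1 hBA
    have hε2 : 0 < ε / 2 := by linarith
    have hev := h (ε / 2) hε2
    have htend : Tendsto (fun R : ℝ => R / B) atTop atTop := tendsto_id.atTop_div_const hB0
    refine Asymptotics.IsBigO.of_bound (C * 4) ?_
    filter_upwards [htend.eventually hev, htend.eventually (eventually_ge_atTop 1), eventually_ge_atTop 1] with R hR hR1 hR2
    have hR0 : 0 < R := by linarith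
    set X : ℝ := R / B with hX
    have hX0 : 0 < X := by linarith
    have hXR : X ≤ R := div_le_self hR0.le hB1.le
    have h1 := hC X hR1 _ _ hR B ⟨le_rfl, le_rfl⟩
    have e1 : X * B = R := div_mul_cancel₀ _ hB0.ne'
    rw [e1] at h1
    have hfl : (⌊X ^ (ε / 2)⌋₊ : ℝ) ≤ X ^ (ε / 2) := Nat.floor_le (by positivity)
    have hXe : 1 ≤ X ^ (ε / 2) := Real.one_le_rpow hR1 hε2.le
    have h2 : √((⌊X ^ (ε / 2)⌋₊ : ℝ) + 1) ≤ 2 * X ^ (ε / 4) := by
      rw [Real.sqrt_le_left (by positivity), mul_pow, ← Real.rpow_natCast (X ^ (ε / 4)) 2, ← Real.rpow_mul hX0.le]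
      have e2 : ε / 4 * ((2:ℕ):ℝ) = ε / 2 := by push_cast; ring
      rw [e2]
      linarith
    have h3 : √X ≤ X ^ (θ + ε / 2) := by
      rw [Real.sqrt_eq_rpow]
      exact Real.rpow_le_rpow_of_exponent_le hR1 (by linarith)
    have h4 : X ^ (θ + ε / 2) + √X ≤ 2 * X ^ (θ + ε / 2) := by linarith
    have h5 : X ^ (ε / 4) * X ^ (θ + ε / 2) ≤ R ^ (θ + ε) := by
      rw [← Real.rpow_add hX0]
      calc X ^ (ε / 4 + (θ + ε / 2)) ≤ X ^ (θ + ε) := Real.rpow_le_rpow_of_exponent_le hR1 (by linarith)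
        _ ≤ R ^ (θ + ε) := Real.rpow_le_rpow hX0.le hXR (by linarith)
    rw [Real.norm_eq_abs, Real.norm_eq_abs, abs_of_nonneg (Real.rpow_nonneg hR0.le _)]
    calc |Pc R| ≤ C * √((⌊X ^ (ε / 2)⌋₊ : ℝ) + 1) * (X ^ (θ + ε / 2) + √X) := h1
      _ ≤ C * (2 * X ^ (ε / 4)) * (2 * X ^ (θ + ε / 2)) := by
          refine mul_le_mul (mul_le_mul_of_nonneg_left h2 hC0.le) h4 (by positivity) (by positivity)
      _ = C * 4 * (X ^ (ε / 4) * X ^ (θ + ε / 2)) := by ring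
      _ ≤ C * 4 * R ^ (θ + ε) := mul_le_mul_of_nonneg_left h5 (by positivity)

end

end Pool.Agent.H480.CP
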