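import Mathlib

/-!
A trace inequality for kernels of finite rank, a choice of points, and a local inequality.
-/

set_option autoImplicit false

open MeasureTheory Filter Topology Set
open scoped InnerProductSpace

namespace Pool.Agent.H480.CP

noncomputable section

/-- **trace inequality**: the trace of a matrix of rank `≤ r` is at most `√r` times its Hilbert-Schmidt norm -/
theorem trace_le {n r : ℕ} (u v : Fin r → Fin n → ℂ) :
    ‖∑ i, ∑ k, u k i * v k i‖ ^ 2 ≤ r * ∑ i, ∑ j, ‖∑ k, u k i * v k j‖ ^ 2 := by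
  set w : Fin r → EuclideanSpace ℂ (Fin n) := fun k => WithLp.toLp 2 (u k) with hw
  set S : Submodule ℂ (EuclideanSpace ℂ (Fin n)) := Submodule.span ℂ (Set.range w) with hS
  have hd : Module.finrank ℂ S ≤ r := by
    have := finrank_range_le_card (R := ℂ) w
    rw [Fintype.card_fin] at this
    exact this
  set b := stdOrthonormalBasis ℂ S with hb
  set f : Fin n → S := fun j => ⟨∑ k, v k j • w k, Submodule.sum_mem _ fun k _ =>
    Submodule.smul_mem _ _ (Submodule.subset_span ⟨k, rfl⟩)⟩ with hf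
  have hfi : ∀ j i, ((f j : EuclideanSpace ℂ (Fin n)) i) = ∑ k, u k i * v k j := by
    intro j i
    simp only [hf, hw]
    rw [WithLp.ofLp_sum, Finset.sum_apply]
    refine Finset.sum_congr rfl fun k _ => ?_
    simp [mul_comm]
  have hexp : ∀ j i, ∑ k, u k i * v k j = ∑ m, ⟪b m, f j⟫_ℂ * ((b m : EuclideanSpace ℂ (Fin n)) i) := by
    intro j i
    rw [← hfi]
    have h1 := b.sum_repr' (f j)
    have h2 := congrArg (fun s : S => ((s : EuclideanSpace ℂ (Fin n)) i)) h1
    simp only at h2
    rw [← h2]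
    rw [Submodule.coe_sum, WithLp.ofLp_sum, Finset.sum_apply]
    refine Finset.sum_congr rfl fun m _ => ?_
    simp
  have h1 : ∑ i, ∑ k, u k i * v k i = ∑ p : Fin n × Fin (Module.finrank ℂ S),
      ⟪b p.2, f p.1⟫_ℂ * ((b p.2 : EuclideanSpace ℂ (Fin n)) p.1) := by
    rw [Fintype.sum_prod_type]
    exact Finset.sum_congr rfl fun i _ => hexp i i
  have hA : ∑ p : Fin n × Fin (Module.finrank ℂ S), ‖⟪b p.2, f p.1⟫_ℂ‖ ^ 2 = ∑ j, ∑ i, ‖∑ k, u k i * v k j‖ ^ 2 := by
    rw [Fintype.sum_prod_type]
    refine Finset.sum_congr rfl fun j _ => ?_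
    have h2 := b.sum_sq_norm_inner_right (f j)
    simp only
    rw [h2]
    have h3 : ‖f j‖ ^ 2 = ‖(f j : EuclideanSpace ℂ (Fin n))‖ ^ 2 := rfl
    rw [h3, EuclideanSpace.norm_sq_eq]
    exact Finset.sum_congr rfl fun i _ => by rw [hfi]
  have hB : ∑ p : Fin n × Fin (Module.finrank ℂ S), ‖((b p.2 : EuclideanSpace ℂ (Fin n)) p.1)‖ ^ 2 = Module.finrank ℂ S := by
    rw [Fintype.sum_prod_type, Finset.sum_comm]
    have h2 : ∀ m, ∑ i, ‖((b m : EuclideanSpace ℂ (Fin n)) i)‖ ^ 2 = 1 := by
      intro m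
      rw [← EuclideanSpace.norm_sq_eq]
      have h3 : ‖(b m : EuclideanSpace ℂ (Fin n))‖ = ‖b m‖ := rfl
      rw [h3, b.orthonormal.1 m, one_pow]
    simp only [h2]
    simp
  rw [h1]
  have h4 : ‖∑ p : Fin n × Fin (Module.finrank ℂ S), ⟪b p.2, f p.1⟫_ℂ * ((b p.2 : EuclideanSpace ℂ (Fin n)) p.1)‖ ≤
      ∑ p : Fin n × Fin (Module.finrank ℂ S), ‖⟪b p.2, f p.1⟫_ℂ‖ * ‖((b p.2 : EuclideanSpace ℂ (Fin n)) p.1)‖ :=
    (norm_sum_le _ _).trans (le_of_eq (Finset.sum_congr rfl fun p _ => norm_mul _ _))
  have h5 := Finset.sum_mul_sq_le_sq_mul_sq (Finset.univ : Finset (Fin n × Fin (Module.finrank ℂ S)))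
    (fun p => ‖⟪b p.2, f p.1⟫_ℂ‖) (fun p => ‖((b p.2 : EuclideanSpace ℂ (Fin n)) p.1)‖)
  rw [hA, hB] at h5
  have h6 : ∑ j, ∑ i, ‖∑ k, u k i * v k j‖ ^ 2 = ∑ i, ∑ j, ‖∑ k, u k i * v k j‖ ^ 2 := Finset.sum_comm
  rw [h6] at h5
  have h7 : (0:ℝ) ≤ ∑ i, ∑ j, ‖∑ k, u k i * v k j‖ ^ 2 := by positivity
  have h8 : (Module.finrank ℂ S : ℝ) ≤ r := by exact_mod_cast hd
  calc _ ≤ (∑ p : Fin n × Fin (Module.finrank ℂ S), ‖⟪b p.2, f p.1⟫_ℂ‖ * ‖((b p.2 : EuclideanSpace ℂ (Fin n)) p.1)‖) ^ 2 :=
        pow_le_pow_left₀ (norm_nonneg _) h4 2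
    _ ≤ _ := h5
    _ ≤ _ := by rw [mul_comm]; exact mul_le_mul_of_nonneg_right h8 h7

theorem pick_le {Ψ : ℝ → ℝ} {b c : ℝ} (hb : 0 < b) (hI : IntervalIntegrable Ψ volume 0 b) (h : ∫ t in (0:ℝ)..b, Ψ t ≤ c) :
    ∃ t ∈ Icc 0 b, Ψ t ≤ c / b := by
  rw [intervalIntegrable_iff_integrableOn_Icc_of_le hb.le] at hI
  rw [intervalIntegral.integral_of_le hb.le, ← integral_Icc_eq_integral_Ioc] at h
  have hvol : volume (Icc (0:ℝ) b) = ENNReal.ofReal b := by simp
  obtain ⟨x, hx, hx2⟩ := exists_le_setAverage (μ := volume) (s := Icc (0:ℝ) b)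
    (f := Ψ) (by rw [hvol]; simpa using hb) (by rw [hvol]; exact ENNReal.ofReal_ne_top) hI
  refine ⟨x, hx, hx2.trans ?_⟩
  rw [setAverage_eq, Measure.real, hvol, ENNReal.toReal_ofReal hb.le, smul_eq_mul]
  have h2 : b⁻¹ * (∫ x in Icc (0:ℝ) b, Ψ x) ≤ b⁻¹ * c := mul_le_mul_of_nonneg_left h (by positivity)
  have h3 : b⁻¹ * c = c / b := by rw [div_eq_mul_inv, mul_comm]
  linarith

/-- choice of points with small mutual energy -/
theorem greedy {G : ℝ → ℝ} {b K : ℝ} (hb : 0 < b) (h0 : ∀ t, 0 ≤ G t) (hI : IntervalIntegrable G volume (-b) b)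
    (hK : ∫ t in (-b)..b, G t ≤ K) (n : ℕ) :
    ∃ a : ℕ → ℝ, (∀ i, a i ∈ Icc 0 b) ∧
      ∑ i ∈ Finset.range n, ∑ j ∈ Finset.range n, (if i = j then 0 else G (a i - a j)) ≤ K / b * n ^ 2 := by
  have hmono : ∀ s : ℝ, s ∈ Icc 0 b → IntervalIntegrable G volume (-s) (b - s) ∧ ∫ t in (-s)..(b - s), G t ≤ K := by
    intro s hs
    have hsub : Icc (-s) (b - s) ⊆ Icc (-b) b := Icc_subset_Icc (by linarith [hs.2]) (by linarith [hs.1])
    have hI' := hI
    rw [intervalIntegrable_iff_integrableOn_Icc_of_le (by linarith)] at hI'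
    constructor
    · rw [intervalIntegrable_iff_integrableOn_Icc_of_le (by linarith)]
      exact hI'.mono_set hsub
    · refine le_trans ?_ hK
      rw [intervalIntegral.integral_of_le (by linarith), intervalIntegral.integral_of_le (by linarith),
        ← integral_Icc_eq_integral_Ioc, ← integral_Icc_eq_integral_Ioc]
      exact setIntegral_mono_set hI' (Eventually.of_forall fun t => h0 t) (Eventually.of_forall hsub)
  induction n with
  | zero => exact ⟨fun _ => 0, fun _ => ⟨le_rfl, hb.le⟩, by simp⟩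
  | succ n ih =>
    obtain ⟨a, ha, hsum⟩ := ih
    have hi1 : ∀ j, IntervalIntegrable (fun t => G (t - a j)) volume 0 b := by
      intro j
      have := (hmono (a j) (ha j)).1.comp_sub_right (a j)
      simpa using this
    have hi2 : ∀ j, IntervalIntegrable (fun t => G (a j - t)) volume 0 b := by
      intro j
      have h1 := (hmono (b - a j) ⟨by linarith [(ha j).2], by linarith [(ha j).1]⟩).1
      have := (h1.comp_sub_left (a j)).symm
      simpa using this
    have hint : IntervalIntegrable (fun t => ∑ j ∈ Finset.range n, (G (t - a j) + G (a j - t))) volume 0 b := by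
      have := IntervalIntegrable.sum (μ := volume) (a := 0) (b := b) (Finset.range n)
        (f := fun j t => G (t - a j) + G (a j - t)) (fun j _ => (hi1 j).add (hi2 j))
      have e : (fun t => ∑ j ∈ Finset.range n, (G (t - a j) + G (a j - t))) =
          ∑ i ∈ Finset.range n, fun t => G (t - a i) + G (a i - t) := by
        funext t
        simp
      rw [e]
      exact this
    have hval : ∫ t in (0:ℝ)..b, ∑ j ∈ Finset.range n, (G (t - a j) + G (a j - t)) ≤ 2 * n * K := by
      rw [intervalIntegral.integral_finset_sum (fun j _ => (hi1 j).add (hi2 j))]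
      calc _ ≤ ∑ j ∈ Finset.range n, (2 * K) := by
            refine Finset.sum_le_sum fun j _ => ?_
            rw [intervalIntegral.integral_add (hi1 j) (hi2 j), intervalIntegral.integral_comp_sub_right (fun t => G t),
              intervalIntegral.integral_comp_sub_left (fun t => G t)]
            have h1 := (hmono (a j) (ha j)).2
            have h2 := (hmono (b - a j) ⟨by linarith [(ha j).2], by linarith [(ha j).1]⟩).2
            have e1 : -(b - a j) = a j - b := by ring
            have e2 : b - (b - a j) = a j - 0 := by ring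
            rw [e1, e2] at h2
            rw [zero_sub]
            linarith
        _ = 2 * n * K := by rw [Finset.sum_const, Finset.card_range, nsmul_eq_mul]; ring
    obtain ⟨t, ht, htle⟩ := pick_le hb hint hval
    refine ⟨Function.update a n t, fun i => ?_, ?_⟩
    · by_cases hi : i = n
      · rw [hi, Function.update_self]; exact ht
      · rw [Function.update_of_ne hi]; exact ha i
    · have hn : ∀ i ∈ Finset.range n, Function.update a n t i = a i := by
        intro i hi
        rw [Function.update_of_ne (by have := Finset.mem_range.1 hi; omega)]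
      rw [Finset.sum_range_succ]
      have e1 : ∑ i ∈ Finset.range n, ∑ j ∈ Finset.range (n + 1),
          (if i = j then 0 else G (Function.update a n t i - Function.update a n t j)) =
          ∑ i ∈ Finset.range n, ∑ j ∈ Finset.range n, (if i = j then 0 else G (a i - a j)) +
            ∑ i ∈ Finset.range n, G (a i - t) := by
        rw [← Finset.sum_add_distrib]
        refine Finset.sum_congr rfl fun i hi => ?_
        rw [Finset.sum_range_succ, hn i hi, Function.update_self, if_neg (by have := Finset.mem_range.1 hi; omega)]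
        congr 1
        refine Finset.sum_congr rfl fun j hj => ?_
        rw [hn j hj]
      have e2 : ∑ j ∈ Finset.range (n + 1),
          (if n = j then 0 else G (Function.update a n t n - Function.update a n t j)) = ∑ j ∈ Finset.range n, G (t - a j) := by
        rw [Finset.sum_range_succ, if_pos rfl, add_zero, Function.update_self]
        refine Finset.sum_congr rfl fun j hj => ?_
        rw [hn j hj, if_neg (by have := Finset.mem_range.1 hj; omega)]
      rw [e1, e2]
      have e3 : ∑ j ∈ Finset.range n, (G (t - a j) + G (a j - t)) =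
          ∑ j ∈ Finset.range n, G (t - a j) + ∑ i ∈ Finset.range n, G (a i - t) := Finset.sum_add_distrib
      rw [e3] at htle
      have hK0 : 0 ≤ K := by
        refine le_trans ?_ hK
        exact intervalIntegral.integral_nonneg (by linarith) fun t _ => h0 t
      have e4 : 2 * n * K / b = K / b * (2 * n) := by ring
      have e5 : 0 ≤ K / b := by positivity
      push_cast
      nlinarith

/-- **the local inequality** -/
theorem local_ineq {H : ℝ → ℝ} {b K E : ℝ} (hb : 0 < b) {r : ℕ} (u v : Fin r → ℝ → ℂ)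
    (hI : IntervalIntegrable (fun t => H t ^ 2) volume 0 (2 * b)) (hK : ∫ t in (0:ℝ)..(2 * b), H t ^ 2 ≤ K)
    (h : ∀ x ∈ Icc 0 b, ∀ y ∈ Icc 0 b, ‖(H (x + y) : ℂ) - ∑ i, u i x * v i y‖ ≤ E) :
    |H b| ≤ E + √(2 * r * (K / b + E ^ 2)) := by
  have hE : 0 ≤ E := (norm_nonneg _).trans (h 0 ⟨le_rfl, hb.le⟩ 0 ⟨le_rfl, hb.le⟩)
  rcases le_total |H b| E with hc | hc
  · exact hc.trans (le_add_of_nonneg_right (Real.sqrt_nonneg _))
  have hGI : IntervalIntegrable (fun t => H (b + t) ^ 2) volume (-b) b := by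
    have := hI.comp_add_left b
    convert this using 1 <;> ring
  have hGK : ∫ t in (-b)..b, H (b + t) ^ 2 ≤ K := by
    rw [intervalIntegral.integral_comp_add_left (fun t => H t ^ 2), show b + -b = 0 by ring, show b + b = 2 * b by ring]
    exact hK
  have key : ∀ n : ℕ, 1 ≤ n → (|H b| - E) ^ 2 ≤ 2 * r * (K / b + E ^ 2) + 2 * r * H b ^ 2 / n := by
    intro n hn
    obtain ⟨a, ha, hsum⟩ := greedy hb (fun t => sq_nonneg (H (b + t))) hGI hGK n
    have hn0 : (0:ℝ) < n := by exact_mod_cast hn
    set U : Fin r → Fin n → ℂ := fun k i => u k (a i) with hU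
    set V : Fin r → Fin n → ℂ := fun k i => v k (b - a i) with hV
    have happ : ∀ i j : Fin n, ‖(H (b + (a i - a j)) : ℂ) - ∑ k, U k i * V k j‖ ≤ E := by
      intro i j
      have := h (a i) (ha i) (b - a j) ⟨by linarith [(ha j).2], by linarith [(ha j).1]⟩
      rwa [show a i + (b - a j) = b + (a i - a j) by ring] at this
    have h1 := trace_le U V
    -- the trace
    have h2 : n * (|H b| - E) ≤ ‖∑ i, ∑ k, U k i * V k i‖ := by
      have h3 : ‖(∑ _i : Fin n, (H b : ℂ)) - ∑ i, ∑ k, U k i * V k i‖ ≤ n * E := by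
        rw [← Finset.sum_sub_distrib]
        refine (norm_sum_le _ _).trans ?_
        calc _ ≤ ∑ _i : Fin n, E := Finset.sum_le_sum fun i _ => by
              have := happ i i
              rwa [sub_self, add_zero] at this
          _ = n * E := by simp
      have h4 : ‖∑ _i : Fin n, (H b : ℂ)‖ = n * |H b| := by
        rw [Finset.sum_const, Finset.card_univ, Fintype.card_fin, nsmul_eq_mul, norm_mul, Complex.norm_natCast,
          Complex.norm_real, Real.norm_eq_abs]
      have h5 := norm_sub_norm_le (∑ _i : Fin n, (H b : ℂ)) (∑ i, ∑ k, U k i * V k i)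
      rw [h4] at h5
      linarith
    -- the Hilbert-Schmidt norm
    have h6 : ∑ i, ∑ j, ‖∑ k, U k i * V k j‖ ^ 2 ≤ 2 * n * H b ^ 2 + 2 * (K / b * n ^ 2) + 2 * n ^ 2 * E ^ 2 := by
      have h7 : ∀ i j : Fin n, ‖∑ k, U k i * V k j‖ ^ 2 ≤ 2 * H (b + (a i - a j)) ^ 2 + 2 * E ^ 2 := by
        intro i j
        have h8 := happ i j
        have h9 := norm_sub_norm_le (∑ k, U k i * V k j) (H (b + (a i - a j)) : ℂ)
        rw [norm_sub_rev] at h9
        rw [Complex.norm_real, Real.norm_eq_abs] at h9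
        have h10 : ‖∑ k, U k i * V k j‖ ≤ |H (b + (a i - a j))| + E := by linarith
        calc _ ≤ (|H (b + (a i - a j))| + E) ^ 2 := pow_le_pow_left₀ (norm_nonneg _) h10 2
          _ ≤ _ := by
              rw [← sq_abs (H (b + (a i - a j)))]
              nlinarith [sq_nonneg (|H (b + (a i - a j))| - E)]
      have h11 : ∀ i j : Fin n, 2 * H (b + (a i - a j)) ^ 2 = 2 * (if (i:ℕ) = j then H b ^ 2 else 0) +
          2 * (if (i:ℕ) = j then 0 else H (b + (a i - a j)) ^ 2) := by
        intro i j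
        by_cases hij : (i:ℕ) = j
        · rw [if_pos hij, if_pos hij, hij, sub_self, add_zero]; ring
        · rw [if_neg hij, if_neg hij]; ring
      calc _ ≤ ∑ i : Fin n, ∑ j : Fin n, (2 * (if (i:ℕ) = j then H b ^ 2 else 0) +
          2 * (if (i:ℕ) = j then 0 else H (b + (a i - a j)) ^ 2) + 2 * E ^ 2) :=
            Finset.sum_le_sum fun i _ => Finset.sum_le_sum fun j _ => by rw [← h11]; exact h7 i j
        _ = 2 * n * H b ^ 2 + 2 * (∑ i : Fin n, ∑ j : Fin n, (if (i:ℕ) = j then 0 else H (b + (a i - a j)) ^ 2)) +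
            2 * n ^ 2 * E ^ 2 := by
            simp only [Finset.sum_add_distrib, ← Finset.mul_sum]
            have e1 : ∑ i : Fin n, ∑ j : Fin n, (if (i:ℕ) = j then H b ^ 2 else 0) = n * H b ^ 2 := by
              have : ∀ i : Fin n, ∑ j : Fin n, (if (i:ℕ) = j then H b ^ 2 else 0) = H b ^ 2 := by
                intro i
                rw [Finset.sum_eq_single i]
                · rw [if_pos rfl]
                · intro j _ hj
                  rw [if_neg]
                  intro h
                  exact hj (Fin.ext h.symm)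
                · intro h
                  exact absurd (Finset.mem_univ _) h
              simp only [this]
              simp
            rw [e1]
            simp
            ring
        _ ≤ _ := by
            have e2 : ∑ i : Fin n, ∑ j : Fin n, (if (i:ℕ) = j then 0 else H (b + (a i - a j)) ^ 2) =
                ∑ i ∈ Finset.range n, ∑ j ∈ Finset.range n, (if i = j then 0 else H (b + (a i - a j)) ^ 2) := by
              rw [Finset.sum_range]
              refine Finset.sum_congr rfl fun i _ => ?_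
              rw [Finset.sum_range]
            rw [e2]
            linarith
    have h12 : (n * (|H b| - E)) ^ 2 ≤ r * (2 * n * H b ^ 2 + 2 * (K / b * n ^ 2) + 2 * n ^ 2 * E ^ 2) := by
      have h13 : 0 ≤ n * (|H b| - E) := mul_nonneg hn0.le (by linarith)
      calc _ ≤ ‖∑ i, ∑ k, U k i * V k i‖ ^ 2 := pow_le_pow_left₀ h13 h2 2
        _ ≤ _ := h1
        _ ≤ _ := mul_le_mul_of_nonneg_left h6 (Nat.cast_nonneg _)
    have h14 : 2 * r * (K / b + E ^ 2) + 2 * r * H b ^ 2 / n =
        r * (2 * n * H b ^ 2 + 2 * (K / b * n ^ 2) + 2 * n ^ 2 * E ^ 2) / n ^ 2 := by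
      field_simp
      ring
    rw [h14, le_div_iff₀ (by positivity)]
    calc (|H b| - E) ^ 2 * n ^ 2 = (n * (|H b| - E)) ^ 2 := by ring
      _ ≤ _ := h12
  have hlim : (|H b| - E) ^ 2 ≤ 2 * r * (K / b + E ^ 2) := by
    have h1 : Tendsto (fun n : ℕ => 2 * r * (K / b + E ^ 2) + 2 * r * H b ^ 2 / n) atTop (𝓝 (2 * r * (K / b + E ^ 2) + 0)) :=
      tendsto_const_nhds.add (tendsto_const_div_atTop_nhds_zero_nat _)
    rw [add_zero] at h1
    refine ge_of_tendsto h1 ?_
    filter_upwards [eventually_ge_atTop 1] with n hn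
    exact key n hn
  have h2 := Real.le_sqrt_of_sq_le hlim
  linarith

end

end Pool.Agent.H480.CP
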