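import Pool.Agent.H480.CP.Y

/-!
The Gauss circle problem: a bound for the error term is a property of local approximate rank in the sup norm.
-/

set_option autoImplicit false

open Complex MeasureTheory Filter Topology Set
open Pool.Agent.H480.K
open Pool.Agent.H480.G
open H313.GK

namespace Pool.Agent.H480.CP

noncomputable section

/-- the lower half: approximate rank gives a bound -/
theorem near_bound {A A' : ℝ} (hA : 1 < A) (hA' : 1 < A') {θ : ℝ} (hθ : 0 ≤ θ) {r : ℕ} {ε : ℝ} (hε : 0 < ε)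
    (h : ∀ᶠ X : ℝ in atTop, NearP A A' r (θ + ε / 3) X) :
    ∃ K : ℝ, ∀ R : ℝ, 1 ≤ R → |Pc R| ≤ K * R ^ (θ + ε) := by
  have h1 := near_sm hA hA' h
  set c : ℂ := ((9⁻¹ : ℝ) : ℂ) with hc
  have hcn : ‖c‖ = 9⁻¹ := by
    rw [hc, Complex.norm_real, Real.norm_eq_abs, abs_of_pos (by norm_num)]
  have hc1 : ‖c‖ ≤ 1 := by rw [hcn]; norm_num
  have hf' : ∀ n : ℕ, n ≠ 0 → ‖(c • fun n => (r2 n : ℂ)) n‖ ≤ (n : ℝ) ^ (2:ℝ) := by
    intro n hn
    have hn1 : (1:ℝ) ≤ n := by exact_mod_cast Nat.one_le_iff_ne_zero.2 hn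
    have h2 : (r2 n : ℝ) ≤ (2 * n + 1) ^ 2 := by exact_mod_cast r2_le n
    rw [Pi.smul_apply, smul_eq_mul, norm_mul, hcn, Complex.norm_natCast, Real.rpow_two]
    nlinarith
  have hA2 : 1 < A ^ 2 := by nlinarith
  have hA2' : 1 < A' ^ 2 := by nlinarith
  obtain ⟨K, hK, hKb⟩ := sup_known (r := r + 2) (f := c • fun n => (r2 n : ℂ)) (β := (θ + ε / 3) / 2) (β' := (θ + 2 * ε / 3) / 2)
    (β'' := (θ + ε) / 2) (b := 2) (by norm_num) hf' hA2 hA2'
    (by linarith) (by linarith) (h1.mono fun X hX => hX.smul hc1) (n := 1) (fun _ => (1:ℂ)) (fun _ => c * Real.pi)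
    (G := fun s => c * (hf s * (FE.Λ₀ s - 1 / s) + dslope hf 1 s)) (c₀ := 1)
    (by
      intro s hs
      have hs0 : s ≠ 0 := by
        intro h0
        rw [h0, Complex.zero_re] at hs
        linarith
      refine DifferentiableAt.const_mul ?_ c
      refine ((hf_diff hs0).mul ?_).add (slope_diff hs0)
      exact (FE.differentiable_Λ₀ s).sub ((differentiableAt_const _).div differentiableAt_id hs0))
    (by
      intro s hs
      rw [LSeries_smul, mul_div_assoc, r2_form hs]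
      have e1 : (Finset.Ici (0 : Fin 1)) = {0} := by decide
      rw [Fin.sum_univ_one, e1, Finset.prod_singleton]
      ring)
  refine ⟨9 * K + 1, fun R hR => ?_⟩
  have hR0 : 0 < R := by linarith
  have h2 := hKb (R ^ 2) (by nlinarith)
  rw [Ex_one, SM_smul] at h2
  have h3 : Complex.exp (1 * ((Real.log (R ^ 2) : ℝ) : ℂ)) = ((R ^ 2 : ℝ) : ℂ) := by
    rw [one_mul, ← Complex.ofReal_exp, Real.exp_log (by positivity)]
  rw [h3, mul_assoc, ← mul_sub, norm_mul, hcn] at h2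
  have h4 : SM (fun n => (r2 n : ℂ)) (R ^ 2) - (Real.pi : ℂ) * ((R ^ 2 : ℝ) : ℂ) = ((Pc R - 1 : ℝ) : ℂ) := by
    have h5 := Fc_eq R
    unfold Pc
    push_cast
    push_cast at h5
    rw [h5]
    ring
  rw [h4, Complex.norm_real, Real.norm_eq_abs] at h2
  have h5 : (R ^ 2) ^ ((θ + ε) / 2) = R ^ (θ + ε) := by
    rw [← Real.rpow_two, ← Real.rpow_mul hR0.le]
    congr 1
    ring
  rw [h5] at h2
  have h6 : |Pc R - 1| ≤ 9 * K * R ^ (θ + ε) := by linarith
  have h7 : 1 ≤ R ^ (θ + ε) := Real.one_le_rpow hR (by linarith)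
  have h8 : |Pc R| ≤ |Pc R - 1| + 1 := by
    have := abs_add_le (Pc R - 1) 1
    simpa using this
  linarith

theorem NearP.of_bigO {θ ε : ℝ} (hε : 0 < ε) (hθ : 0 ≤ θ) (h : Pc =O[atTop] fun R : ℝ => R ^ (θ + ε / 2))
    {A A' : ℝ} (hA : 1 < A) (hA' : 1 < A') (r : ℕ) : ∀ᶠ X : ℝ in atTop, NearP A A' r (θ + ε) X := by
  obtain ⟨K, hK0, hK⟩ := h.exists_nonneg
  obtain ⟨R₀, hR₀⟩ := eventually_atTop.1 hK.bound
  have h1 : Tendsto (fun X : ℝ => X ^ (ε / 2)) atTop atTop := tendsto_rpow_atTop (by linarith)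
  filter_upwards [h1.eventually_ge_atTop (K * (A * A') ^ (θ + ε / 2)), eventually_ge_atTop 1, eventually_ge_atTop R₀] with X hX hX1 hXR
  refine ⟨fun _ _ => 0, fun _ _ => 0, fun x hx y hy => ?_⟩
  have hX0 : 0 < X := by linarith
  have hx1 : 1 ≤ x := hx.1
  have hy1 : 1 ≤ y := hy.1
  have hge : X ≤ X * x * y := by
    have h2 : X ≤ X * x := le_mul_of_one_le_right hX0.le hx1
    have h3 : X * x ≤ X * x * y := le_mul_of_one_le_right (by linarith) hy1
    linarith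
  have hxy0 : 0 < X * x * y := by linarith
  simp only [mul_zero, Finset.sum_const_zero, sub_zero]
  have hle : X * x * y ≤ X * (A * A') := by
    rw [mul_assoc]
    refine mul_le_mul_of_nonneg_left ?_ hX0.le
    exact mul_le_mul hx.2 hy.2 (by linarith) (by linarith)
  have hA0 : 0 < A * A' := by nlinarith
  have h4 := hR₀ (X * x * y) (by linarith)
  rw [Real.norm_eq_abs, Real.norm_eq_abs, abs_of_nonneg (Real.rpow_nonneg hxy0.le _)] at h4
  calc ‖(Pc (X * x * y) : ℂ)‖ = |Pc (X * x * y)| := by rw [Complex.norm_real, Real.norm_eq_abs]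
    _ ≤ K * (X * x * y) ^ (θ + ε / 2) := h4
    _ ≤ K * (X * (A * A')) ^ (θ + ε / 2) := mul_le_mul_of_nonneg_left (Real.rpow_le_rpow (by linarith) hle (by linarith)) hK0
    _ = (K * (A * A') ^ (θ + ε / 2)) * X ^ (θ + ε / 2) := by
        rw [Real.mul_rpow hX0.le hA0.le]; ring
    _ ≤ X ^ (ε / 2) * X ^ (θ + ε / 2) := mul_le_mul_of_nonneg_right hX (by positivity)
    _ = X ^ (θ + ε) := by
        rw [← Real.rpow_add hX0]
        congr 1
        ring

/-- **the main theorem for the circle problem** -/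
theorem circle_tfae {A A' : ℝ} (hA : 1 < A) (hA' : 1 < A') {θ : ℝ} (hθ : 0 ≤ θ) :
    [∀ ε : ℝ, 0 < ε → Pc =O[atTop] fun R : ℝ => R ^ (θ + ε),
     ∃ r : ℕ, ∀ ε : ℝ, 0 < ε → ∀ᶠ X : ℝ in atTop, NearP A A' r (θ + ε) X,
     ∀ ε : ℝ, 0 < ε → ∃ r : ℕ, ∀ᶠ X : ℝ in atTop, NearP A A' r (θ + ε) X].TFAE := by
  tfae_have 1 → 2 := by
    intro h
    exact ⟨0, fun ε hε => NearP.of_bigO hε hθ (h (ε / 2) (by linarith)) hA hA' 0⟩
  tfae_have 2 → 3 := fun ⟨r, h⟩ ε hε => ⟨r, h ε hε⟩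
  tfae_have 3 → 1 := by
    intro h ε hε
    obtain ⟨r, hr⟩ := h (ε / 3) (by linarith)
    obtain ⟨K, hK⟩ := near_bound hA hA' hθ hε hr
    refine Asymptotics.IsBigO.of_bound K ?_
    filter_upwards [eventually_ge_atTop 1] with R hR
    rw [Real.norm_eq_abs, Real.norm_eq_abs, abs_of_nonneg (Real.rpow_nonneg (by linarith) _)]
    exact hK R hR
  tfae_finish

end

end Pool.Agent.H480.CP
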