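import Pool.Agent.H480.CP.A
import Pool.Agent.H480.CP.W
import Pool.Agent.H480.CP.X

/-!
The circle problem: approximation by kernels of finite rank, a local inequality.
-/

set_option autoImplicit false

open MeasureTheory Filter Topology Set

namespace Pool.Agent.H480.CP

open Pool.Agent.H383.Gen (U Bd)
open Pool.Agent.H383.Gauss (En F)
open Pool.Agent.H383.Circ (ag)
open Pool.Agent.R461.GC (En_meas En_bdd)

noncomputable section

theorem Pc_En {R : ℝ} (hR : 0 < R) : Pc R ^ 2 = R * En R ^ 2 := by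
  have h1 : Fc R = F R := rfl
  unfold Pc En
  rw [h1, div_pow, Real.sq_sqrt hR.le]
  field_simp

/-- the mean square in every window -/
theorem ms_bd {κ : ℝ} (hκ : 1 < κ) : ∃ C : ℝ, 0 ≤ C ∧ ∀ X : ℝ, 1 ≤ X →
    IntegrableOn (fun x => Pc (X * x) ^ 2) (Icc 1 κ) ∧ ∫ x in Icc 1 κ, Pc (X * x) ^ 2 ≤ C * X := by
  obtain ⟨M, hM⟩ := win_ms hκ one_pos
  obtain ⟨T₀, hT1, hT⟩ := hM M le_rfl
  obtain ⟨B, hB0, hB⟩ := U_bd M
  obtain ⟨B', hB'⟩ := En_bdd 1 (T₀ * κ) one_pos
  have hint : ∀ X : ℝ, 1 ≤ X → IntegrableOn (fun x => En (X * x) ^ 2) (Icc 1 κ) := by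
    intro X hX
    obtain ⟨b, hb⟩ := En_bdd 1 (X * κ) one_pos
    refine Measure.integrableOn_of_bounded (M := b ^ 2) (by simp) ?_ ?_
    · exact ((En_meas.comp (measurable_const_mul X)).pow_const 2).aestronglyMeasurable
    · refine (ae_restrict_iff' measurableSet_Icc).2 (ae_of_all _ fun x hx => ?_)
      have h1 := hb (X * x) (by nlinarith [hx.1]) (mul_le_mul_of_nonneg_left hx.2 (by linarith))
      rw [Real.norm_eq_abs, abs_pow]
      exact pow_le_pow_left₀ (abs_nonneg _) h1 2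
  have hvol : (volume : Measure ℝ).real (Icc 1 κ) = κ - 1 := by
    rw [Measure.real, Real.volume_Icc, ENNReal.toReal_ofReal (by linarith)]
  have hEn : ∃ C : ℝ, 0 ≤ C ∧ ∀ X : ℝ, 1 ≤ X → ∫ x in Icc 1 κ, En (X * x) ^ 2 ≤ C := by
    refine ⟨max (2 * 1 + 2 * B ^ 2 * (κ - 1)) (B' ^ 2 * (κ - 1)), le_max_of_le_left (by nlinarith [sq_nonneg B]), fun X hX => ?_⟩
    rcases le_total T₀ X with hc | hc
    · refine le_trans ?_ (le_max_left _ _)
      have h1 := hT X hc
      have hU : IntegrableOn (fun x => (En (X * x) - U ag ph (X * x) M) ^ 2) (Icc 1 κ) := by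
        obtain ⟨b, hb⟩ := En_bdd 1 (X * κ) one_pos
        refine Measure.integrableOn_of_bounded (M := (b + B) ^ 2) (by simp) ?_ ?_
        · refine ((En_meas.comp (measurable_const_mul X)).sub ?_).pow_const 2 |>.aestronglyMeasurable
          exact ((Pool.Agent.N687.W.U_cont ag ph M).comp (continuous_const_mul X)).measurable
        · refine (ae_restrict_iff' measurableSet_Icc).2 (ae_of_all _ fun x hx => ?_)
          have h1 := hb (X * x) (by nlinarith [hx.1]) (mul_le_mul_of_nonneg_left hx.2 (by linarith))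
          have h2 := hB (X * x)
          rw [Real.norm_eq_abs, abs_pow]
          refine pow_le_pow_left₀ (abs_nonneg _) ((abs_sub _ _).trans (add_le_add h1 h2)) 2
      calc ∫ x in Icc 1 κ, En (X * x) ^ 2 ≤ ∫ x in Icc 1 κ, (2 * (En (X * x) - U ag ph (X * x) M) ^ 2 + 2 * B ^ 2) := by
            refine setIntegral_mono_on (hint X hX) ((hU.const_mul 2).add (integrableOn_const (by simp))) measurableSet_Icc
              fun x _ => ?_
            have h3 : U ag ph (X * x) M ^ 2 ≤ B ^ 2 := by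
              rw [← sq_abs]; exact pow_le_pow_left₀ (abs_nonneg _) (hB _) 2
            nlinarith [sq_nonneg (En (X * x) - 2 * U ag ph (X * x) M)]
        _ = 2 * (∫ x in Icc 1 κ, (En (X * x) - U ag ph (X * x) M) ^ 2) + 2 * B ^ 2 * (κ - 1) := by
            rw [integral_add (hU.const_mul 2) (integrableOn_const (by simp)), integral_const_mul, setIntegral_const, hvol,
              smul_eq_mul]
            ring
        _ ≤ _ := by linarith
    · refine le_trans ?_ (le_max_right _ _)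
      calc ∫ x in Icc 1 κ, En (X * x) ^ 2 ≤ ∫ x in Icc 1 κ, B' ^ 2 := by
            refine setIntegral_mono_on (hint X hX) (integrableOn_const (by simp)) measurableSet_Icc fun x hx => ?_
            have h1 := hB' (X * x) (by nlinarith [hx.1]) (mul_le_mul hc hx.2 (by linarith [hx.1]) (by linarith))
            rw [← sq_abs]
            exact pow_le_pow_left₀ (abs_nonneg _) h1 2
        _ = _ := by rw [setIntegral_const, hvol, smul_eq_mul]; ring
  obtain ⟨C, hC0, hC⟩ := hEn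
  refine ⟨κ * C, by positivity, fun X hX => ?_⟩
  have hX0 : 0 < X := by linarith
  have e1 : ∀ x ∈ Icc 1 κ, Pc (X * x) ^ 2 = X * x * En (X * x) ^ 2 := fun x hx => Pc_En (mul_pos hX0 (by linarith [hx.1]))
  have hI : IntegrableOn (fun x => Pc (X * x) ^ 2) (Icc 1 κ) := by
    obtain ⟨b, hb⟩ := En_bdd 1 (X * κ) one_pos
    have h1 : IntegrableOn (fun x => X * x * En (X * x) ^ 2) (Icc 1 κ) := by
      refine Measure.integrableOn_of_bounded (M := X * κ * b ^ 2) (by simp) ?_ ?_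
      · exact ((measurable_const_mul X).mul ((En_meas.comp (measurable_const_mul X)).pow_const 2)).aestronglyMeasurable
      · refine (ae_restrict_iff' measurableSet_Icc).2 (ae_of_all _ fun x hx => ?_)
        have h1 := hb (X * x) (by nlinarith [hx.1]) (mul_le_mul_of_nonneg_left hx.2 (by linarith))
        have hx0 : 0 ≤ X * x := by nlinarith [hx.1]
        rw [Real.norm_eq_abs, abs_mul, abs_of_nonneg hx0, abs_pow]
        exact mul_le_mul (mul_le_mul_of_nonneg_left hx.2 hX0.le) (pow_le_pow_left₀ (abs_nonneg _) h1 2) (by positivity)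
          (by nlinarith)
    exact h1.congr_fun (fun x hx => (e1 x hx).symm) measurableSet_Icc
  refine ⟨hI, ?_⟩
  calc ∫ x in Icc 1 κ, Pc (X * x) ^ 2 ≤ ∫ x in Icc 1 κ, X * κ * En (X * x) ^ 2 := by
        refine setIntegral_mono_on hI ((hint X hX).const_mul _) measurableSet_Icc fun x hx => ?_
        rw [e1 x hx]
        exact mul_le_mul_of_nonneg_right (mul_le_mul_of_nonneg_left hx.2 hX0.le) (sq_nonneg _)
    _ = X * κ * ∫ x in Icc 1 κ, En (X * x) ^ 2 := by rw [integral_const_mul]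
    _ ≤ X * κ * C := mul_le_mul_of_nonneg_left (hC X hX) (by positivity)
    _ = _ := by ring

/-- **the local inequality for the circle problem**, square windows -/
theorem circle_sq {A : ℝ} (hA : 1 < A) : ∃ C : ℝ, 0 < C ∧ ∀ X : ℝ, 1 ≤ X → ∀ (r : ℕ) (u v : Fin r → ℝ → ℂ) (E : ℝ),
    (∀ x ∈ Icc 1 A, ∀ y ∈ Icc 1 A, ‖(Pc (X * x * y) : ℂ) - ∑ i, u i x * v i y‖ ≤ E) →
    |Pc (X * A)| ≤ C * √(r + 1) * (E + √X) := by
  have hA2 : 1 < A ^ 2 := by nlinarith
  have hA0 : 0 < A := by linarith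
  obtain ⟨C, hC0, hC⟩ := ms_bd hA2
  set b : ℝ := Real.log A with hb
  have hb0 : 0 < b := Real.log_pos hA
  refine ⟨3 * (1 + √(C / b)), by positivity, fun X hX r u v E h => ?_⟩
  have hX0 : 0 < X := by linarith
  obtain ⟨hI, hle⟩ := hC X hX
  have hE : 0 ≤ E := (norm_nonneg _).trans (h 1 ⟨le_rfl, hA.le⟩ 1 ⟨le_rfl, hA.le⟩)
  have hlog : Real.log (A ^ 2) = 2 * b := by rw [Real.log_pow]; push_cast; ring
  have h1 := Pool.Agent.H480.K.cv_int hA2.le hI
  have h2 := Pool.Agent.H480.K.cv_le hA2.le hI (fun x _ => sq_nonneg _)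
  rw [hlog] at h1 h2
  have hexp : Real.exp b = A := Real.exp_log hA0
  have hmem : ∀ x ∈ Icc 0 b, Real.exp x ∈ Icc 1 A := fun x hx =>
    ⟨Real.one_le_exp hx.1, by rw [← hexp]; exact Real.exp_le_exp.2 hx.2⟩
  have h3 := local_ineq (H := fun t => Pc (X * Real.exp t)) (K := C * X) (E := E) hb0
    (fun i x => u i (Real.exp x)) (fun i y => v i (Real.exp y))
    (by rw [intervalIntegrable_iff_integrableOn_Icc_of_le (by linarith)]; exact h1)
    (by
      rw [intervalIntegral.integral_of_le (by linarith), ← integral_Icc_eq_integral_Ioc]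
      exact h2.trans hle)
    (fun x hx y hy => by
      have := h _ (hmem x hx) _ (hmem y hy)
      rwa [mul_assoc, ← Real.exp_add] at this)
  simp only [hexp] at h3
  refine h3.trans ?_
  have hr1 : 1 ≤ √((r:ℝ) + 1) := Real.one_le_sqrt.2 (by linarith [Nat.cast_nonneg (α := ℝ) r])
  have h4 : √(2 * r * (C * X / b + E ^ 2)) ≤ 2 * √((r:ℝ) + 1) * (√(C / b) * √X + E) := by
    rw [Real.sqrt_le_left (by positivity)]
    have h5 : (√((r:ℝ) + 1)) ^ 2 = r + 1 := Real.sq_sqrt (by positivity)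
    have h6 : (√(C / b)) ^ 2 = C / b := Real.sq_sqrt (by positivity)
    have h7 : (√X) ^ 2 = X := Real.sq_sqrt hX0.le
    have h8 : 0 ≤ √(C / b) * √X * E := by positivity
    calc 2 * r * (C * X / b + E ^ 2) ≤ 2 * (r + 1) * (C * X / b + E ^ 2) := by
          refine mul_le_mul_of_nonneg_right (by linarith) (by positivity)
      _ = 2 * (r + 1) * ((√(C / b)) ^ 2 * (√X) ^ 2 + E ^ 2) := by rw [h6, h7]; ring
      _ ≤ 4 * (r + 1) * (√(C / b) * √X + E) ^ 2 := by
          have h9 : (√(C / b)) ^ 2 * (√X) ^ 2 + E ^ 2 ≤ (√(C / b) * √X + E) ^ 2 := by nlinarith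
          have h10 : (0:ℝ) ≤ (√(C / b) * √X + E) ^ 2 := sq_nonneg _
          have h11 : (0:ℝ) ≤ (r:ℝ) + 1 := by positivity
          nlinarith [mul_le_mul_of_nonneg_left h9 h11]
      _ = (2 * √((r:ℝ) + 1) * (√(C / b) * √X + E)) ^ 2 := by rw [mul_pow, mul_pow, h5]; ring
  have h5 : 0 ≤ √(C / b) := Real.sqrt_nonneg _
  have h6 : 0 ≤ √X := Real.sqrt_nonneg _
  have h7 : E ≤ √((r:ℝ) + 1) * E := le_mul_of_one_le_left hE hr1
  have h8 : 0 ≤ √((r:ℝ) + 1) := by linarith
  have h9 : √(C / b) * √X + E ≤ (1 + √(C / b)) * (E + √X) := by nlinarith [mul_nonneg h5 hE]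
  have h10 : √((r:ℝ) + 1) * E ≤ √((r:ℝ) + 1) * ((1 + √(C / b)) * (E + √X)) := by
    refine mul_le_mul_of_nonneg_left ?_ h8
    nlinarith [mul_nonneg h5 hE, mul_nonneg h5 h6]
  have h11 : √((r:ℝ) + 1) * (√(C / b) * √X + E) ≤ √((r:ℝ) + 1) * ((1 + √(C / b)) * (E + √X)) :=
    mul_le_mul_of_nonneg_left h9 h8
  calc E + √(2 * r * (C * X / b + E ^ 2)) ≤ √((r:ℝ) + 1) * E + 2 * √((r:ℝ) + 1) * (√(C / b) * √X + E) := add_le_add h7 h4
    _ ≤ _ := by nlinarith

end

end Pool.Agent.H480.CP
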