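import Mathlib

/-!
The Dirichlet series of the number of representations as a sum of two squares: continuation by the square of the
theta function.
-/

set_option autoImplicit false

open Filter Topology Asymptotics Set MeasureTheory Complex
open HurwitzZeta

namespace Pool.Agent.H480.CP

noncomputable section

/-- the theta function `∑ exp(- π n² x)` -/
def K0 (x : ℝ) : ℝ := evenKernel 0 x

/-- its square -/
def th (x : ℝ) : ℂ := ((K0 x ^ 2 : ℝ) : ℂ)

/-- the quadratic form -/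
def qf (p : ℤ × ℤ) : ℕ := p.1.natAbs ^ 2 + p.2.natAbs ^ 2

/-- number of representations as a sum of two squares -/
def r2 (n : ℕ) : ℕ := Nat.card {p : ℤ × ℤ // qf p = n}

theorem qf_cast (p : ℤ × ℤ) : (qf p : ℝ) = (p.1 : ℝ) ^ 2 + (p.2 : ℝ) ^ 2 := by
  unfold qf
  push_cast
  rw [Nat.cast_natAbs, Nat.cast_natAbs, Int.cast_abs, Int.cast_abs, sq_abs, sq_abs]

theorem K0_sum {t : ℝ} (ht : 0 < t) : HasSum (fun n : ℤ => Real.exp (-Real.pi * (n : ℝ) ^ 2 * t)) (K0 t) := by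
  have h := hasSum_int_evenKernel 0 ht
  simpa [K0] using h

theorem th_sum {t : ℝ} (ht : 0 < t) :
    HasSum (fun p : ℤ × ℤ => Real.exp (-Real.pi * (qf p : ℝ) * t)) (K0 t ^ 2) := by
  have h := K0_sum ht
  have h2 := h.mul h (h.summable.mul_of_nonneg h.summable (fun _ => (Real.exp_pos _).le) (fun _ => (Real.exp_pos _).le))
  rw [sq]
  refine h2.congr_fun ?_
  intro p
  rw [← Real.exp_add, qf_cast]
  congr 1
  ring

theorem th_sum0 {t : ℝ} (ht : 0 < t) :
    HasSum (fun p : ℤ × ℤ => if (qf p : ℝ) = 0 then (0:ℂ) else 1 * (Real.exp (-Real.pi * (qf p : ℝ) * t) : ℂ)) (th t - 1) := by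
  have h := hasSum_ite_sub_hasSum (th_sum ht) ((0 : ℤ), (0 : ℤ))
  have h2 : HasSum (fun p : ℤ × ℤ => ((if p = ((0:ℤ), (0:ℤ)) then 0 else Real.exp (-Real.pi * (qf p : ℝ) * t) : ℝ) : ℂ))
      ((K0 t ^ 2 - Real.exp (-Real.pi * (qf ((0:ℤ), (0:ℤ)) : ℝ) * t) : ℝ) : ℂ) := by
    exact_mod_cast h
  have e0 : qf ((0:ℤ), (0:ℤ)) = 0 := by simp [qf]
  rw [e0] at h2
  have e1 : (((K0 t ^ 2 - Real.exp (-Real.pi * ((0:ℕ) : ℝ) * t) : ℝ)) : ℂ) = th t - 1 := by
    unfold th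
    simp
  rw [e1] at h2
  refine h2.congr_fun ?_
  intro p
  have e2 : ((qf p : ℝ) = 0) ↔ p = ((0:ℤ), (0:ℤ)) := by
    rw [Nat.cast_eq_zero]
    unfold qf
    constructor
    · intro h
      have h1 : p.1.natAbs ^ 2 = 0 := by omega
      have h2 : p.2.natAbs ^ 2 = 0 := by omega
      have h3 : p.1 = 0 := by simpa using h1
      have h4 : p.2 = 0 := by simpa using h2
      exact Prod.ext h3 h4
    · rintro rfl
      simp
  by_cases hp : p = ((0:ℤ), (0:ℤ))
  · rw [if_pos (e2.2 hp), if_pos hp]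
    simp
  · rw [if_neg (fun h => hp (e2.1 h)), if_neg hp]
    simp

theorem K0_feq {x : ℝ} (hx : 0 < x) : K0 (1 / x) = x ^ (1 / 2 : ℝ) * K0 x := by
  unfold K0
  rw [evenKernel_functional_equation, ← evenKernel_eq_cosKernel_of_zero, one_div_one_div, Real.div_rpow zero_le_one hx.le,
    Real.one_rpow, one_div_one_div]

theorem th_feq {x : ℝ} (hx : 0 < x) : th (1 / x) = (1 * ((x ^ (1:ℝ) : ℝ) : ℂ)) • th x := by
  unfold th
  rw [K0_feq hx, mul_pow, ← Real.rpow_natCast (x ^ (1 / 2 : ℝ)) 2, ← Real.rpow_mul hx.le]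
  norm_num

theorem th_cont : ContinuousOn th (Ioi 0) := by
  unfold th K0
  exact Complex.continuous_ofReal.comp_continuousOn ((continuousOn_evenKernel 0).pow 2)

theorem th_top (r : ℝ) : (fun x => th x - 1) =O[atTop] (fun x : ℝ => x ^ r) := by
  obtain ⟨p, hp, h⟩ := isBigO_atTop_evenKernel_sub 0
  simp only [if_true] at h
  have h1 : (fun x => K0 x - 1) =O[atTop] (fun x : ℝ => x ^ r) :=
    h.trans (isLittleO_exp_neg_mul_rpow_atTop hp r).isBigO
  have h2 : (fun x => K0 x - 1) =O[atTop] (fun _ : ℝ => (1:ℝ)) := by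
    have := h.trans (isLittleO_exp_neg_mul_rpow_atTop hp 0).isBigO
    simp only [Real.rpow_zero] at this
    exact this
  have h3 : (fun x => K0 x + 1) =O[atTop] (fun _ : ℝ => (1:ℝ)) := by
    have h4 : (fun x : ℝ => (K0 x - 1) + 2) =O[atTop] (fun _ : ℝ => (1:ℝ)) := h2.add (isBigO_const_const _ one_ne_zero _)
    refine h4.congr_left fun x => ?_
    ring
  have h5 := h1.mul h3
  simp only [mul_one] at h5
  refine (IsBigO.of_norm_left ?_)
  have h6 : (fun x => ‖th x - 1‖) = fun x => ‖(K0 x - 1) * (K0 x + 1)‖ := by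
    funext x
    unfold th
    rw [show (((K0 x ^ 2 : ℝ)) : ℂ) - 1 = (((K0 x - 1) * (K0 x + 1) : ℝ) : ℂ) by push_cast; ring, Complex.norm_real]
  rw [h6]
  exact h5.norm_left

/-- the square of the theta function as a pair with a functional equation -/
def FE : WeakFEPair ℂ where
  f := th
  g := th
  k := 1
  ε := 1
  f₀ := 1
  g₀ := 1
  hf_int := th_cont.locallyIntegrableOn measurableSet_Ioi
  hg_int := th_cont.locallyIntegrableOn measurableSet_Ioi
  hk := one_pos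
  hε := one_ne_zero
  h_feq := fun x hx => th_feq hx
  hf_top := th_top
  hg_top := th_top

theorem sum_q {σ : ℝ} (hσ : 1 < σ) : Summable fun p : ℤ × ℤ => 1 / (qf p : ℝ) ^ σ := by
  have h1 := EisensteinSeries.summable_one_div_norm_rpow (k := 2 * σ) (by linarith)
  have h2 : Summable fun p : ℤ × ℤ => ‖((finTwoArrowEquiv ℤ).symm p)‖ ^ (-(2 * σ)) :=
    ((finTwoArrowEquiv ℤ).symm.summable_iff (f := fun x : Fin 2 → ℤ => ‖x‖ ^ (-(2 * σ)))).2 h1
  refine Summable.of_nonneg_of_le (fun p => by positivity) (fun p => ?_) h2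
  set w : Fin 2 → ℤ := (finTwoArrowEquiv ℤ).symm p with hw
  have hn : ‖w‖ ^ 2 ≤ (qf p : ℝ) := by
    rw [qf_cast]
    have h3 : ‖w‖ ≤ √((p.1 : ℝ) ^ 2 + (p.2 : ℝ) ^ 2) := by
      rw [pi_norm_le_iff_of_nonneg (Real.sqrt_nonneg _)]
      intro i
      apply Real.le_sqrt_of_sq_le
      fin_cases i
      · have : w 0 = p.1 := by simp [hw]
        show ‖w 0‖ ^ 2 ≤ _
        rw [this, Int.norm_eq_abs, sq_abs]
        nlinarith [sq_nonneg (p.2 : ℝ)]
      · have : w 1 = p.2 := by simp [hw]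
        show ‖w 1‖ ^ 2 ≤ _
        rw [this, Int.norm_eq_abs, sq_abs]
        nlinarith [sq_nonneg (p.1 : ℝ)]
    calc ‖w‖ ^ 2 ≤ (√((p.1 : ℝ) ^ 2 + (p.2 : ℝ) ^ 2)) ^ 2 := pow_le_pow_left₀ (norm_nonneg _) h3 2
      _ = _ := Real.sq_sqrt (by positivity)
  rcases eq_or_lt_of_le (norm_nonneg w) with h0 | h0
  · have hw0 : w = 0 := norm_eq_zero.1 h0.symm
    have hp : p = (0, 0) := by
      have h4 : w 0 = p.1 := by simp [hw]
      have h5 : w 1 = p.2 := by simp [hw]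
      rw [hw0] at h4 h5
      exact Prod.ext h4.symm h5.symm
    have hq : qf p = 0 := by rw [hp]; simp [qf]
    rw [hq, Nat.cast_zero, Real.zero_rpow (by linarith), div_zero]
    positivity
  · rw [Real.rpow_neg h0.le, ← one_div, Real.rpow_mul h0.le, Real.rpow_two]
    exact one_div_le_one_div_of_le (by positivity) (Real.rpow_le_rpow (by positivity) hn (by linarith))

theorem mellin_FE {s : ℂ} (hs : 1 < s.re) :
    HasSum (fun p : ℤ × ℤ => (Real.pi : ℂ) ^ (-s) * Complex.Gamma s * 1 / ((qf p : ℝ) : ℂ) ^ s) (FE.Λ s) := by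
  have h1 : FE.Λ s = mellin (fun t => th t - 1) s := (FE.hasMellin (s := s) hs).2.symm
  rw [h1]
  refine hasSum_mellin_pi_mul₀ (a := fun _ => (1:ℂ)) (p := fun p : ℤ × ℤ => (qf p : ℝ)) (fun p => Nat.cast_nonneg _)
    (by linarith) (fun t ht => ?_) ?_
  · exact th_sum0 ht
  · simpa using sum_q hs

theorem fin_fib (n : ℕ) : Finite {p : ℤ × ℤ // qf p = n} := by
  refine Set.Finite.to_subtype (s := {p : ℤ × ℤ | qf p = n}) ?_
  refine (Set.Finite.prod (Set.finite_Icc (-(n:ℤ)) n) (Set.finite_Icc (-(n:ℤ)) n)).subset fun p hp => ?_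
  have hp' : p.1.natAbs ^ 2 + p.2.natAbs ^ 2 = n := hp
  have h1 : p.1.natAbs ≤ n := by nlinarith [Nat.le_self_pow two_ne_zero p.1.natAbs, sq_nonneg p.2.natAbs]
  have h2 : p.2.natAbs ≤ n := by nlinarith [Nat.le_self_pow two_ne_zero p.2.natAbs, sq_nonneg p.1.natAbs]
  exact ⟨mem_Icc.2 ⟨by omega, by omega⟩, mem_Icc.2 ⟨by omega, by omega⟩⟩

theorem r2_le (n : ℕ) : r2 n ≤ (2 * n + 1) ^ 2 := by
  have hsub : {p : ℤ × ℤ | qf p = n} ⊆ (((Finset.Icc (-(n:ℤ)) n) ×ˢ (Finset.Icc (-(n:ℤ)) n) : Finset (ℤ × ℤ)) : Set (ℤ × ℤ)) := by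
    intro p hp
    have hp' : p.1.natAbs ^ 2 + p.2.natAbs ^ 2 = n := hp
    have h1 : p.1.natAbs ≤ n := by nlinarith [Nat.le_self_pow two_ne_zero p.1.natAbs, sq_nonneg p.2.natAbs]
    have h2 : p.2.natAbs ≤ n := by nlinarith [Nat.le_self_pow two_ne_zero p.2.natAbs, sq_nonneg p.1.natAbs]
    simp only [Finset.coe_product, Finset.coe_Icc]
    exact ⟨mem_Icc.2 ⟨by omega, by omega⟩, mem_Icc.2 ⟨by omega, by omega⟩⟩
  have h1 := Set.ncard_le_ncard hsub (Finset.finite_toSet _)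
  rw [Set.ncard_coe_finset, Finset.card_product, Int.card_Icc] at h1
  have h2 : ((n:ℤ) + 1 - -(n:ℤ)).toNat = 2 * n + 1 := by omega
  rw [h2] at h1
  unfold r2
  rw [sq]
  exact h1

/-- **the Dirichlet series** -/
theorem r2_L {s : ℂ} (hs : 1 < s.re) :
    (Real.pi : ℂ) ^ (-s) * Complex.Gamma s * LSeries (fun n => (r2 n : ℂ)) s = FE.Λ s := by
  have h := mellin_FE hs
  have h1 := (Equiv.sigmaFiberEquiv qf).hasSum_iff.2 h
  have h2 : HasSum (fun n : ℕ => (Real.pi : ℂ) ^ (-s) * Complex.Gamma s * LSeries.term (fun n => (r2 n : ℂ)) s n) (FE.Λ s) := by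
    refine h1.sigma fun n => ?_
    haveI := fin_fib n
    haveI := Fintype.ofFinite {p : ℤ × ℤ // qf p = n}
    have e1 : ∀ c : {p : ℤ × ℤ // qf p = n}, ((fun p : ℤ × ℤ => (Real.pi : ℂ) ^ (-s) * Complex.Gamma s * 1 / ((qf p : ℝ) : ℂ) ^ s) ∘
        (Equiv.sigmaFiberEquiv qf)) ⟨n, c⟩ = (Real.pi : ℂ) ^ (-s) * Complex.Gamma s * 1 / ((n : ℝ) : ℂ) ^ s := by
      intro c
      simp only [Function.comp, Equiv.sigmaFiberEquiv]
      show (Real.pi : ℂ) ^ (-s) * Complex.Gamma s * 1 / ((qf c.1 : ℝ) : ℂ) ^ s = _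
      rw [c.2]
    simp only [e1]
    have h3 := hasSum_fintype (fun _ : {p : ℤ × ℤ // qf p = n} => (Real.pi : ℂ) ^ (-s) * Complex.Gamma s * 1 / ((n : ℝ) : ℂ) ^ s)
    have e2 : ∑ _c : {p : ℤ × ℤ // qf p = n}, (Real.pi : ℂ) ^ (-s) * Complex.Gamma s * 1 / ((n : ℝ) : ℂ) ^ s =
        (Real.pi : ℂ) ^ (-s) * Complex.Gamma s * LSeries.term (fun n => (r2 n : ℂ)) s n := by
      rw [Finset.sum_const, Finset.card_univ, ← Nat.card_eq_fintype_card, nsmul_eq_mul]
      change (r2 n : ℂ) * _ = _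
      rcases eq_or_ne n 0 with rfl | hn
      · rw [LSeries.term_zero, Nat.cast_zero, Complex.ofReal_zero, Complex.zero_cpow (by
          intro h0; rw [h0, Complex.zero_re] at hs; linarith)]
        simp
      · rw [LSeries.term_of_ne_zero hn]
        push_cast
        ring
    rw [← e2]
    exact h3
  rw [← h2.tsum_eq, LSeries, ← tsum_mul_left]

end

end Pool.Agent.H480.CP
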