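import Pool.Agent.H480.P5
import Pool.Agent.H480.CP.Z

/-!
The Gauss circle problem: sup norm version of the theorem on local approximate rank.
-/

set_option autoImplicit false

open Complex MeasureTheory Filter Topology Set
open Pool.Agent.H480.K
open Pool.Agent.H480.G
open H313.GK

namespace Pool.Agent.H480.CP

noncomputable section

/-- the number of lattice points in the disc -/
def Fc (R : ℝ) : ℝ := (Nat.card {p : ℤ × ℤ // (p.1 : ℝ) ^ 2 + (p.2 : ℝ) ^ 2 ≤ R ^ 2} : ℝ)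

/-- the error term -/
def Pc (R : ℝ) : ℝ := Fc R - Real.pi * R ^ 2

theorem Tm_one (ρ : Fin 1 → ℂ) : Tm ρ = ρ 0 • (1 : Op 1) := by
  ext w i
  fin_cases i
  show (Tm ρ w) 0 = (ρ 0 • (1 : Op 1)) w 0
  rw [Tm_apply]
  unfold Am
  rw [Matrix.add_mulVec, Pi.add_apply, Matrix.mulVec_diagonal]
  simp [Matrix.mulVec, dotProduct]

theorem Ex_one (ρ a : Fin 1 → ℂ) (u : ℝ) : Ex ρ a u = a 0 * Complex.exp (ρ 0 * u) := by
  have h1 : gp ρ u = Complex.exp (ρ 0 * u) • (1 : Op 1) := by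
    unfold gp
    rw [Tm_one, smul_smul, mul_comm (u : ℂ)]
    have h2 := NormedSpace.algebraMap_exp_comm (𝕂 := ℂ) (𝔸 := Op 1) (ρ 0 * u)
    rw [Algebra.algebraMap_eq_smul_one, Algebra.algebraMap_eq_smul_one, ← Complex.exp_eq_exp_ℂ] at h2
    exact h2.symm
  unfold Ex
  rw [ell_apply, h1]
  simp [ev]

/-- the counting function through `r2` -/
theorem Fc_eq (R : ℝ) : (Fc R : ℂ) = 1 + SM (fun n => (r2 n : ℂ)) (R ^ 2) := by
  set M : ℕ := ⌊R ^ 2⌋₊ with hM
  have hiff : ∀ p : ℤ × ℤ, ((p.1 : ℝ) ^ 2 + (p.2 : ℝ) ^ 2 ≤ R ^ 2) ↔ qf p ≤ M := by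
    intro p
    rw [← qf_cast, hM, Nat.le_floor_iff (sq_nonneg R)]
  set B : Finset (ℤ × ℤ) := (Finset.Icc (-(M:ℤ)) M) ×ˢ (Finset.Icc (-(M:ℤ)) M) with hB
  have hbox : ∀ p : ℤ × ℤ, qf p ≤ M → p ∈ B := by
    intro p hp
    have hp' : p.1.natAbs ^ 2 + p.2.natAbs ^ 2 ≤ M := hp
    have h1 : p.1.natAbs ≤ M := by nlinarith [Nat.le_self_pow two_ne_zero p.1.natAbs, sq_nonneg p.2.natAbs]
    have h2 : p.2.natAbs ≤ M := by nlinarith [Nat.le_self_pow two_ne_zero p.2.natAbs, sq_nonneg p.1.natAbs]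
    rw [hB, Finset.mem_product, Finset.mem_Icc, Finset.mem_Icc]
    constructor <;> constructor <;> omega
  have hcard : Nat.card {p : ℤ × ℤ // (p.1 : ℝ) ^ 2 + (p.2 : ℝ) ^ 2 ≤ R ^ 2} = (B.filter fun p => qf p ≤ M).card := by
    refine Nat.subtype_card _ fun p => ?_
    rw [Finset.mem_filter, hiff]
    exact ⟨fun h => h.2, fun h => ⟨hbox p h, h⟩⟩
  have hr2 : ∀ n ≤ M, r2 n = ((B.filter fun p => qf p ≤ M).filter fun p => qf p = n).card := by
    intro n hn
    refine Nat.subtype_card _ fun p => ?_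
    rw [Finset.mem_filter, Finset.mem_filter]
    exact ⟨fun h => h.2, fun h => ⟨⟨hbox p (h.le.trans hn), h.le.trans hn⟩, h⟩⟩
  have hsum := Finset.card_eq_sum_card_fiberwise (f := qf) (s := B.filter fun p => qf p ≤ M) (t := Finset.range (M + 1))
    (fun p hp => by
      have h1 := (Finset.mem_filter.1 hp).2
      exact Finset.mem_coe.2 (Finset.mem_range.2 (by omega)))
  have hsum2 : (B.filter fun p => qf p ≤ M).card = ∑ n ∈ Finset.range (M + 1), r2 n := by
    rw [hsum]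
    refine Finset.sum_congr rfl fun n hn => ?_
    rw [hr2 n (by have := Finset.mem_range.1 hn; omega)]
  have hr0 : r2 0 = 1 := by
    have h1 : r2 0 = ({((0:ℤ), (0:ℤ))} : Finset (ℤ × ℤ)).card := by
      refine Nat.subtype_card _ fun p => ?_
      rw [Finset.mem_singleton]
      unfold qf
      constructor
      · rintro rfl
        simp
      · intro h
        have h1 : p.1.natAbs ^ 2 = 0 := by omega
        have h2 : p.2.natAbs ^ 2 = 0 := by omega
        have h3 : p.1 = 0 := by simpa using h1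
        have h4 : p.2 = 0 := by simpa using h2
        exact Prod.ext h3 h4
    rw [h1, Finset.card_singleton]
  have hrange : ∑ n ∈ Finset.range (M + 1), r2 n = 1 + ∑ n ∈ Finset.Icc 1 M, r2 n := by
    rw [Finset.range_eq_Ico, Finset.sum_eq_sum_Ico_succ_bot (by omega), hr0]
    rfl
  unfold Fc SM
  rw [hcard, hsum2, hrange]
  push_cast
  rfl

/-- approximate local rank in the sup norm for the error term -/
def NearP (A A' : ℝ) (r : ℕ) (β X : ℝ) : Prop :=
  ∃ u v : Fin r → ℝ → ℂ, ∀ x ∈ Icc 1 A, ∀ y ∈ Icc 1 A', ‖(Pc (X * x * y) : ℂ) - ∑ i, u i x * v i y‖ ≤ X ^ β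

theorem near_sm {A A' : ℝ} (hA : 1 < A) (hA' : 1 < A') {r : ℕ} {β : ℝ} (h : ∀ᶠ X : ℝ in atTop, NearP A A' r β X) :
    ∀ᶠ X : ℝ in atTop, NearSup (SM (fun n => (r2 n : ℂ))) (A ^ 2) (A' ^ 2) (r + 2) (β / 2) X := by
  have h1 : Tendsto (fun X : ℝ => √X) atTop atTop := Real.tendsto_sqrt_atTop
  filter_upwards [h1.eventually h, eventually_ge_atTop 1] with X hX hX1
  obtain ⟨u, v, huv⟩ := hX
  have hX0 : 0 < X := by linarith
  refine ⟨Fin.cons (fun x => ((Real.pi * X * x : ℝ) : ℂ)) (Fin.cons (fun _ => -1) fun i x => u i √x),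
    Fin.cons (fun y => ((y : ℝ) : ℂ)) (Fin.cons (fun _ => 1) fun i y => v i √y), fun x hx y hy => ?_⟩
  have hx0 : 0 ≤ x := by linarith [hx.1]
  have hy0 : 0 ≤ y := by linarith [hy.1]
  have hx' : √x ∈ Icc 1 A := ⟨Real.one_le_sqrt.2 hx.1, Real.sqrt_le_iff.2 ⟨by linarith, hx.2⟩⟩
  have hy' : √y ∈ Icc 1 A' := ⟨Real.one_le_sqrt.2 hy.1, Real.sqrt_le_iff.2 ⟨by linarith, hy.2⟩⟩
  have h2 := huv _ hx' _ hy'
  have hsq : (√X * √x * √y) ^ 2 = X * x * y := by
    rw [mul_pow, mul_pow, Real.sq_sqrt hX0.le, Real.sq_sqrt hx0, Real.sq_sqrt hy0]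
  have h3 : SM (fun n => (r2 n : ℂ)) (X * x * y) = (Pc (√X * √x * √y) : ℂ) + (Real.pi * X * x : ℝ) * (y : ℝ) - 1 := by
    have h4 := Fc_eq (√X * √x * √y)
    rw [hsq] at h4
    unfold Pc
    rw [hsq]
    push_cast
    rw [h4]
    ring
  rw [Fin.sum_univ_succ, Fin.sum_univ_succ]
  simp only [Fin.cons_zero, Fin.cons_succ]
  rw [h3]
  refine le_trans (le_of_eq ?_) (h2.trans (le_of_eq ?_))
  · congr 1
    ring
  · rw [Real.sqrt_eq_rpow, ← Real.rpow_mul hX0.le]
    congr 1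
    ring

/-- the factor -/
def hf (s : ℂ) : ℂ := (Real.pi : ℂ) ^ s * (Complex.Gamma s)⁻¹ / s

theorem hf_one : hf 1 = Real.pi := by
  unfold hf
  rw [Complex.cpow_one, Complex.Gamma_one, inv_one, mul_one, div_one]

theorem hf_diff {s : ℂ} (hs : s ≠ 0) : DifferentiableAt ℂ hf s := by
  unfold hf
  refine DifferentiableAt.div (DifferentiableAt.mul ?_ ?_) differentiableAt_id hs
  · exact differentiableAt_id.const_cpow (Or.inl (by exact_mod_cast Real.pi_pos.ne'))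
  · exact Complex.differentiable_one_div_Gamma s

theorem slope_diff {s : ℂ} (hs : s ≠ 0) : DifferentiableAt ℂ (dslope hf 1) s := by
  have h1 : DifferentiableOn ℂ hf {0}ᶜ := fun z hz => (hf_diff hz).differentiableWithinAt
  have h2 : ({0}ᶜ : Set ℂ) ∈ 𝓝 (1:ℂ) := isOpen_compl_singleton.mem_nhds (by simp)
  have h3 := (Complex.differentiableOn_dslope h2).2 h1
  exact h3.differentiableAt (isOpen_compl_singleton.mem_nhds hs)

/-- the principal part of the Dirichlet series -/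
theorem r2_form {s : ℂ} (hs : 1 < s.re) : LSeries (fun n => (r2 n : ℂ)) s / s =
    (Real.pi : ℂ) / (s - 1) + (hf s * (FE.Λ₀ s - 1 / s) + dslope hf 1 s) := by
  have hs0 : s ≠ 0 := by
    intro h0
    rw [h0, Complex.zero_re] at hs
    linarith
  have hs1 : s ≠ 1 := by
    intro h0
    rw [h0, Complex.one_re] at hs
    linarith
  have hs2 : s - 1 ≠ 0 := sub_ne_zero.2 hs1
  have h1 := r2_L hs
  have hpi : (Real.pi : ℂ) ≠ 0 := by exact_mod_cast Real.pi_pos.ne'
  have hG : Complex.Gamma s ≠ 0 := Complex.Gamma_ne_zero_of_re_pos (by linarith)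
  have h2 : LSeries (fun n => (r2 n : ℂ)) s / s = hf s * FE.Λ s := by
    rw [← h1]
    unfold hf
    rw [Complex.cpow_neg]
    have hp : (Real.pi : ℂ) ^ s ≠ 0 := by
      rw [Complex.cpow_def_of_ne_zero hpi]
      exact Complex.exp_ne_zero _
    field_simp
  have h3 : FE.Λ s = FE.Λ₀ s - 1 / s + 1 / (s - 1) := by
    unfold WeakFEPair.Λ
    show FE.Λ₀ s - (1 / s) • (1:ℂ) - ((1:ℂ) / (((1:ℝ) : ℂ) - s)) • (1:ℂ) = _
    rw [smul_eq_mul, smul_eq_mul, Complex.ofReal_one, mul_one, mul_one]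
    have : (1:ℂ) - s = -(s - 1) := by ring
    rw [this]
    field_simp
    ring
  rw [h2, h3, dslope_of_ne _ hs1, slope_def_field, hf_one]
  field_simp
  ring

end

end Pool.Agent.H480.CP
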